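import Pool.Agent.H75K.Word

/-!
Module K2, first part.  Closure properties of the analytic subsets of the free group.
-/

set_option autoImplicit false

open scoped commutatorElement
open Set MeasureTheory

namespace Pool.Agent.H75K

variable {X G : Type} [TopologicalSpace X] [PolishSpace X] [Group G] [TopologicalSpace G]
  [T2Space G] {π : X → G}

omit [PolishSpace X] [Group G] [TopologicalSpace G] [T2Space G] in
theorem Ana.iUnion {κ : Type*} [Countable κ] {A : κ → Set (FreeGroup G)} (h : ∀ k, Ana π (A k)) :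
    Ana π (⋃ k, A k) := by
  intro n τ
  have : {x : Fin n → X | val π x τ ∈ ⋃ k, A k} = ⋃ k, {x : Fin n → X | val π x τ ∈ A k} := by
    ext x
    simp
  rw [this]
  exact AnalyticSet.iUnion fun k => h k n τ

omit [Group G] [TopologicalSpace G] [T2Space G] in
theorem Ana.inter {A B : Set (FreeGroup G)} (hA : Ana π A) (hB : Ana π B) : Ana π (A ∩ B) := by
  intro n τ
  have : {x : Fin n → X | val π x τ ∈ A ∩ B} =
      ⋂ b : Bool, {x : Fin n → X | val π x τ ∈ if b then A else B} := by
    ext x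
    simp [Bool.forall_bool, and_comm]
  rw [this]
  refine AnalyticSet.iInter fun b => ?_
  cases b
  · simpa using hB n τ
  · simpa using hA n τ

omit [PolishSpace X] [Group G] [TopologicalSpace G] [T2Space G] in
theorem Ana.pow_preimage {A : Set (FreeGroup G)} (hA : Ana π A) (m : ℕ) :
    Ana π {f | f ^ m ∈ A} := by
  intro n τ
  have := hA n (τ ^ m)
  simp only [map_pow] at this
  exact this

omit [PolishSpace X] [Group G] [TopologicalSpace G] [T2Space G] in
theorem Ana.inv {A : Set (FreeGroup G)} (hA : Ana π A) : Ana π {f | f⁻¹ ∈ A} := by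
  intro n τ
  have := hA n τ⁻¹
  simp only [map_inv] at this
  exact this

/-- The set of the values of a word in two letters, the letters being in analytic sets.

`{x | val π x τ ∈ …}` is the union over `n₁, σ : FreeGroup (Fin n₁), n₂, ρ : FreeGroup (Fin n₂)` of the
projections to `Fin n → X` of the set of all `(x, y, z)` with `val π y σ ∈ A`, `val π z ρ ∈ B` and
`val π x τ = lift ![val π y σ, val π z ρ] ω` (by `exists_val`); the last condition is
`val π (Sum.elim x (Sum.elim y z)) τ' = 1` for a `τ' : FreeGroup (Fin n ⊕ (Fin n₁ ⊕ Fin n₂))`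
(`val_map`, `analytic_one`); use `AnalyticSet.preimage`, `AnalyticSet.iInter`, `image_of_continuous`. -/
theorem Ana.map2 (hπ : Continuous π) (hs : Function.Surjective π) {A B : Set (FreeGroup G)}
    (hA : Ana π A) (hB : Ana π B) (ω : FreeGroup Bool) :
    Ana π {f | ∃ a ∈ A, ∃ b ∈ B, f = FreeGroup.lift (fun c => if c then b else a) ω} := by
  intro n τ
  -- the pieces
  let T : (n₁ : ℕ) → FreeGroup (Fin n₁) → (n₂ : ℕ) → FreeGroup (Fin n₂) →
      Set (Fin n ⊕ (Fin n₁ ⊕ Fin n₂) → X) := fun n₁ σ n₂ ρ =>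
    {w | val π (fun i => w (Sum.inr (Sum.inl i))) σ ∈ A ∧
      val π (fun i => w (Sum.inr (Sum.inr i))) ρ ∈ B ∧
      val π (fun i => w (Sum.inl i)) τ =
        FreeGroup.lift (fun c => if c then val π (fun i => w (Sum.inr (Sum.inr i))) ρ
          else val π (fun i => w (Sum.inr (Sum.inl i))) σ) ω}
  have hT : ∀ n₁ σ n₂ ρ, AnalyticSet (T n₁ σ n₂ ρ) := by
    intro n₁ σ n₂ ρ
    have h1 : AnalyticSet {w : Fin n ⊕ (Fin n₁ ⊕ Fin n₂) → X |
        val π (fun i => w (Sum.inr (Sum.inl i))) σ ∈ A} :=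
      (hA n₁ σ).preimage (f := fun w : Fin n ⊕ (Fin n₁ ⊕ Fin n₂) → X =>
        fun i => w (Sum.inr (Sum.inl i))) (by fun_prop)
    have h2 : AnalyticSet {w : Fin n ⊕ (Fin n₁ ⊕ Fin n₂) → X |
        val π (fun i => w (Sum.inr (Sum.inr i))) ρ ∈ B} :=
      (hB n₂ ρ).preimage (f := fun w : Fin n ⊕ (Fin n₁ ⊕ Fin n₂) → X =>
        fun i => w (Sum.inr (Sum.inr i))) (by fun_prop)
    let υ : FreeGroup (Fin n ⊕ (Fin n₁ ⊕ Fin n₂)) :=
      FreeGroup.lift (fun c : Bool => if c then FreeGroup.map (fun i => Sum.inr (Sum.inr i)) ρ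
        else FreeGroup.map (fun i => Sum.inr (Sum.inl i)) σ) ω
    have h3 : AnalyticSet {w : Fin n ⊕ (Fin n₁ ⊕ Fin n₂) → X |
        val π w (FreeGroup.map Sum.inl τ * υ⁻¹) = 1} := analytic_one hπ _
    have h4 : ∀ w : Fin n ⊕ (Fin n₁ ⊕ Fin n₂) → X, val π w υ =
        FreeGroup.lift (fun c => if c then val π (fun i => w (Sum.inr (Sum.inr i))) ρ
          else val π (fun i => w (Sum.inr (Sum.inl i))) σ) ω := by
      intro w
      have h5 : ((val π w).comp (FreeGroup.lift (fun c : Bool =>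
          if c then FreeGroup.map (fun i => (Sum.inr (Sum.inr i) : Fin n ⊕ (Fin n₁ ⊕ Fin n₂))) ρ
          else FreeGroup.map (fun i => Sum.inr (Sum.inl i)) σ))) =
          FreeGroup.lift (fun c => if c then val π (fun i => w (Sum.inr (Sum.inr i))) ρ
            else val π (fun i => w (Sum.inr (Sum.inl i))) σ) := by
        apply FreeGroup.ext_hom
        intro c
        rw [MonoidHom.comp_apply, FreeGroup.lift_apply_of, FreeGroup.lift_apply_of]
        cases c
        · simp only [Bool.false_eq_true, if_false]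
          exact val_map _ _ _
        · simp only [if_true]
          exact val_map _ _ _
      rw [← h5]
      rfl
    have h6 : T n₁ σ n₂ ρ = ⋂ k : Fin 3, (![{w : Fin n ⊕ (Fin n₁ ⊕ Fin n₂) → X |
        val π (fun i => w (Sum.inr (Sum.inl i))) σ ∈ A}, {w : Fin n ⊕ (Fin n₁ ⊕ Fin n₂) → X |
        val π (fun i => w (Sum.inr (Sum.inr i))) ρ ∈ B}, {w : Fin n ⊕ (Fin n₁ ⊕ Fin n₂) → X |
        val π w (FreeGroup.map Sum.inl τ * υ⁻¹) = 1}] k) := by
      ext w
      rw [mem_iInter, Fin.forall_fin_succ, Fin.forall_fin_succ, Fin.forall_fin_one]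
      simp only [T, mem_setOf_eq]
      refine and_congr Iff.rfl (and_congr Iff.rfl ?_)
      change _ ↔ val π w (FreeGroup.map Sum.inl τ * υ⁻¹) = 1
      rw [map_mul, map_inv, mul_inv_eq_one, h4, val_map]
    rw [h6]
    refine AnalyticSet.iInter fun k => ?_
    fin_cases k
    · exact h1
    · exact h2
    · exact h3
  have hS : {x : Fin n → X | val π x τ ∈ {f | ∃ a ∈ A, ∃ b ∈ B,
      f = FreeGroup.lift (fun c => if c then b else a) ω}} =
      ⋃ (n₁ : ℕ), ⋃ (σ : FreeGroup (Fin n₁)), ⋃ (n₂ : ℕ), ⋃ (ρ : FreeGroup (Fin n₂)),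
        (fun w : Fin n ⊕ (Fin n₁ ⊕ Fin n₂) → X => fun i => w (Sum.inl i)) '' T n₁ σ n₂ ρ := by
    ext x
    simp only [mem_setOf_eq, mem_iUnion, mem_image]
    constructor
    · rintro ⟨a, ha, b, hb, h⟩
      obtain ⟨n₁, σ, y, hy⟩ := exists_val hs a
      obtain ⟨n₂, ρ, z, hz⟩ := exists_val hs b
      refine ⟨n₁, σ, n₂, ρ, Sum.elim x (Sum.elim y z), ⟨?_, ?_, ?_⟩, ?_⟩
      · simp only [Sum.elim_inr, Sum.elim_inl]
        rw [hy]
        exact ha
      · simp only [Sum.elim_inr]
        rw [hz]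
        exact hb
      · simp only [Sum.elim_inr, Sum.elim_inl]
        rw [hy, hz]
        exact h
      · funext i
        rfl
    · rintro ⟨n₁, σ, n₂, ρ, w, ⟨h1, h2, h3⟩, rfl⟩
      exact ⟨_, h1, _, h2, h3⟩
  rw [hS]
  refine AnalyticSet.iUnion fun n₁ => AnalyticSet.iUnion fun σ => AnalyticSet.iUnion fun n₂ =>
    AnalyticSet.iUnion fun ρ => ?_
  exact (hT n₁ σ n₂ ρ).image_of_continuous (by fun_prop)

theorem Ana.mul (hπ : Continuous π) (hs : Function.Surjective π) {A B : Set (FreeGroup G)}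
    (hA : Ana π A) (hB : Ana π B) : Ana π {f | ∃ a ∈ A, ∃ b ∈ B, f = a * b} := by
  have h := Ana.map2 hπ hs hA hB (FreeGroup.of false * FreeGroup.of true)
  simpa only [map_mul, FreeGroup.lift_apply_of, Bool.false_eq_true, if_false, if_true] using h

theorem Ana.comm (hπ : Continuous π) (hs : Function.Surjective π) {A B : Set (FreeGroup G)}
    (hA : Ana π A) (hB : Ana π B) : Ana π {f | ∃ a ∈ A, ∃ b ∈ B, f = ⁅a, b⁆} := by
  have h := Ana.map2 hπ hs hA hB ⁅FreeGroup.of false, FreeGroup.of true⁆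
  simpa only [map_commutatorElement, FreeGroup.lift_apply_of, Bool.false_eq_true, if_false,
    if_true] using h

theorem Ana.pow (hπ : Continuous π) (hs : Function.Surjective π) {A : Set (FreeGroup G)}
    (hA : Ana π A) (n : ℕ) : Ana π {f | ∃ a ∈ A, f = a ^ n} := by
  have h := Ana.map2 hπ hs hA hA (FreeGroup.of false ^ n)
  have h2 : {f : FreeGroup G | ∃ a ∈ A, f = a ^ n} = {f | ∃ a ∈ A, ∃ b ∈ A,
      f = FreeGroup.lift (fun c => if c then b else a) (FreeGroup.of false ^ n)} := by
    ext f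
    simp only [mem_setOf_eq, map_pow, FreeGroup.lift_apply_of, Bool.false_eq_true, if_false]
    constructor
    · rintro ⟨a, ha, h⟩
      exact ⟨a, ha, a, ha, h⟩
    · rintro ⟨a, ha, _, _, h⟩
      exact ⟨a, ha, h⟩
  rw [h2]
  exact h

theorem ana_one (hπ : Continuous π) : Ana π ({1} : Set (FreeGroup G)) := by
  intro n τ
  simpa only [mem_singleton_iff] using analytic_one hπ τ

omit [PolishSpace X] [Group G] [TopologicalSpace G] [T2Space G] in
theorem Ana.union {A B : Set (FreeGroup G)} (hA : Ana π A) (hB : Ana π B) : Ana π (A ∪ B) := by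
  have h : Ana π (⋃ k : Bool, if k then A else B) := by
    refine Ana.iUnion fun k => ?_
    cases k
    · simpa using hB
    · simpa using hA
  have e : (⋃ k : Bool, if k then A else B) = A ∪ B := by
    ext f
    simp [Set.mem_iUnion, or_comm]
  rwa [e] at h

/-- `closure A = ⋃ n, (A ∪ A⁻¹)ⁿ`: `Subgroup.closure_toSubmonoid`,
`Submonoid.exists_list_of_mem_closure`. -/
theorem Ana.closure (hπ : Continuous π) (hs : Function.Surjective π) {A : Set (FreeGroup G)}
    (hA : Ana π A) : Ana π (Subgroup.closure A : Set (FreeGroup G)) := by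
  let S : Set (FreeGroup G) := A ∪ {f | f⁻¹ ∈ A}
  have hS : Ana π S := Ana.union hA hA.inv
  let B : ℕ → Set (FreeGroup G) := fun n =>
    Nat.rec ({1} : Set (FreeGroup G)) (fun _ C => {f | ∃ a ∈ C, ∃ b ∈ S, f = a * b}) n
  have hB0 : B 0 = {1} := rfl
  have hBs : ∀ n, B (n + 1) = {f | ∃ a ∈ B n, ∃ b ∈ S, f = a * b} := fun n => rfl
  have hB : ∀ n, Ana π (B n) := by
    intro n
    induction n with
    | zero => rw [hB0]; exact ana_one hπ
    | succ n ih => rw [hBs]; exact Ana.mul hπ hs ih hS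
  have e : (Subgroup.closure A : Set (FreeGroup G)) = ⋃ n, B n := by
    ext f
    rw [SetLike.mem_coe, Set.mem_iUnion]
    constructor
    · intro hf
      induction hf using Subgroup.closure_induction_right with
      | one => exact ⟨0, rfl⟩
      | mul_right x hx y hy ih =>
        obtain ⟨n, hn⟩ := ih
        exact ⟨n + 1, x, hn, y, Or.inl hy, rfl⟩
      | mul_inv_cancel x hx y hy ih =>
        obtain ⟨n, hn⟩ := ih
        refine ⟨n + 1, x, hn, y⁻¹, Or.inr ?_, rfl⟩
        show (y⁻¹)⁻¹ ∈ A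
        rwa [inv_inv]
    · rintro ⟨n, hn⟩
      induction n generalizing f with
      | zero =>
        have : f = 1 := hn
        rw [this]
        exact one_mem _
      | succ n ih =>
        obtain ⟨a, ha, b, hb, rfl⟩ := hn
        refine mul_mem (ih a ha) ?_
        rcases hb with hb | hb
        · exact Subgroup.subset_closure hb
        · have h1 : b⁻¹ ∈ Subgroup.closure A := Subgroup.subset_closure hb
          simpa using inv_mem h1
  rw [e]
  exact Ana.iUnion hB

/-- left translates: `f₀⁻¹ = val π x₀ τ₀` by `exists_val`; preimage under `x ↦ Sum.elim x₀ x` -/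
theorem Ana.translate (hs : Function.Surjective π) {A : Set (FreeGroup G)} (hA : Ana π A)
    (f₀ : FreeGroup G) : Ana π {f | f₀⁻¹ * f ∈ A} := by
  obtain ⟨m, τ₀, x₀, h₀⟩ := exists_val (π := π) hs f₀⁻¹
  intro n τ
  have h1 := hA.fintype (FreeGroup.map (Sum.inl : Fin m → Fin m ⊕ Fin n) τ₀ *
    FreeGroup.map (Sum.inr : Fin n → Fin m ⊕ Fin n) τ)
  have hc : Continuous (fun x : Fin n → X => (Sum.elim x₀ x : Fin m ⊕ Fin n → X)) := by
    refine continuous_pi fun i => ?_
    rcases i with i | i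
    · exact continuous_const
    · exact continuous_apply i
  have h2 := h1.preimage hc
  have e : {x : Fin n → X | val π x τ ∈ {f | f₀⁻¹ * f ∈ A}} =
      (fun x : Fin n → X => (Sum.elim x₀ x : Fin m ⊕ Fin n → X)) ⁻¹'
        {z | val π z (FreeGroup.map (Sum.inl : Fin m → Fin m ⊕ Fin n) τ₀ *
          FreeGroup.map (Sum.inr : Fin n → Fin m ⊕ Fin n) τ) ∈ A} := by
    ext x
    simp only [Set.mem_ofPred_eq, Set.mem_preimage, map_mul, val_map, Sum.elim_inl, Sum.elim_inr,
      h₀]
  rw [e]
  exact h2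

omit [TopologicalSpace G] [T2Space G] in
theorem ana_univ : Ana π (univ : Set (FreeGroup G)) := by
  intro n τ
  have : {x : Fin n → X | val π x τ ∈ (univ : Set (FreeGroup G))} = univ := by
    ext x; simp
  rw [this]
  exact isClosed_univ.analyticSet

omit [TopologicalSpace X] [PolishSpace X] [TopologicalSpace G] [T2Space G] in
theorem ev_val {ι : Type} (x : ι → X) (τ : FreeGroup ι) :
    ev G (val π x τ) = FreeGroup.lift (fun i => π (x i)) τ := by
  have h2 : (ev G).comp (val π x) = FreeGroup.lift (fun i => π (x i)) := by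
    ext i
    simp [ev, val]
  exact DFunLike.congr_fun h2 τ

omit [PolishSpace X] [T2Space G] in
theorem continuous_ev [IsTopologicalGroup G] (hπ : Continuous π) {ι : Type} (τ : FreeGroup ι) :
    Continuous (fun x : ι → X => FreeGroup.lift (fun i => π (x i)) τ) := by
  induction τ using FreeGroup.induction_on with
  | C1 => simpa using continuous_const
  | of i =>
    simp only [FreeGroup.lift_apply_of]
    exact hπ.comp (continuous_apply i)
  | inv_of i _ =>
    simp only [map_inv, FreeGroup.lift_apply_of]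
    exact (hπ.comp (continuous_apply i)).inv
  | mul a b ha hb =>
    simp only [map_mul]
    exact ha.mul hb

/-- the relations: `ev (val π x τ) = FreeGroup.lift (π ∘ x) τ` is continuous in `x` -/
theorem ana_ker [IsTopologicalGroup G] (hπ : Continuous π) :
    Ana π ((ev G).ker : Set (FreeGroup G)) := by
  intro n τ
  have e : {x : Fin n → X | val π x τ ∈ ((ev G).ker : Set (FreeGroup G))} =
      (fun x : Fin n → X => FreeGroup.lift (fun i => π (x i)) τ) ⁻¹' {1} := by
    ext x
    have h := ev_val (π := π) x τ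
    simp only [Set.mem_ofPred_eq, SetLike.mem_coe, MonoidHom.mem_ker, Set.mem_preimage,
      Set.mem_singleton_iff, h]
  rw [e]
  exact (isClosed_singleton.preimage (continuous_ev hπ τ)).analyticSet

/-- `⁅⊤, ker⁆` -/
theorem ana_D [IsTopologicalGroup G] (hπ : Continuous π) (hs : Function.Surjective π) :
    Ana π ((⁅(⊤ : Subgroup (FreeGroup G)), (ev G).ker⁆ : Subgroup (FreeGroup G)) :
      Set (FreeGroup G)) := by
  -- `Subgroup.commutator_def`: closure of the set of the commutators
  rw [Subgroup.commutator_def]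
  refine Ana.closure hπ hs ?_
  have h := Ana.comm hπ hs (ana_univ (π := π)) (ana_ker (π := π) hπ)
  have e : {f : FreeGroup G | ∃ g₁ ∈ (⊤ : Subgroup (FreeGroup G)), ∃ g₂ ∈ (ev G).ker,
      ⁅g₁, g₂⁆ = f} = {f | ∃ a ∈ (univ : Set (FreeGroup G)),
      ∃ b ∈ ((ev G).ker : Set (FreeGroup G)), f = ⁅a, b⁆} := by
    ext f
    simp only [Set.mem_ofPred_eq]
    constructor
    · rintro ⟨a, _, b, hb, rfl⟩
      exact ⟨a, Set.mem_univ a, b, hb, rfl⟩
    · rintro ⟨a, _, b, hb, rfl⟩
      exact ⟨a, Subgroup.mem_top a, b, hb, rfl⟩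
  rw [e]
  exact h

/-- `ker ⊓ [F, F]` -/
theorem ana_T [IsTopologicalGroup G] (hπ : Continuous π) (hs : Function.Surjective π) :
    Ana π (((ev G).ker ⊓ commutator (FreeGroup G) : Subgroup (FreeGroup G)) :
      Set (FreeGroup G)) := by
  rw [Subgroup.coe_inf]
  refine Ana.inter (ana_ker hπ) ?_
  rw [commutator_def, Subgroup.commutator_def]
  refine Ana.closure hπ hs ?_
  have h := Ana.comm hπ hs (ana_univ (π := π)) (ana_univ (π := π))
  have e : {f : FreeGroup G | ∃ g₁ ∈ (⊤ : Subgroup (FreeGroup G)),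
      ∃ g₂ ∈ (⊤ : Subgroup (FreeGroup G)), ⁅g₁, g₂⁆ = f} =
      {f | ∃ a ∈ (univ : Set (FreeGroup G)), ∃ b ∈ (univ : Set (FreeGroup G)),
        f = ⁅a, b⁆} := by
    ext f
    simp only [Set.mem_ofPred_eq]
    constructor
    · rintro ⟨a, _, b, hb, rfl⟩
      exact ⟨a, Set.mem_univ a, b, Set.mem_univ b, rfl⟩
    · rintro ⟨a, _, b, hb, rfl⟩
      exact ⟨a, Subgroup.mem_top a, b, Subgroup.mem_top b, rfl⟩
  rw [e]
  exact h

end Pool.Agent.H75K
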