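import Mathlib

/-!
Module K4.  A map from the Cantor space to a countable set with analytic fibres takes the same value
at two points which differ in exactly one coordinate.

Proof.  The fibres are measurable (`AnalyticSet.measurableSet_of_compl`: the complement is the union
of the other fibres).  One fibre `A` is not meagre (`ℕ → Bool` is a nonempty Baire space), and
`A =ᵇ U`, `U` open (`MeasurableSet.residualEq_isOpen`, Borel σ-algebra), `U ≠ ∅`.  `U` contains a
nonempty basic open set `C`, which depends on coordinates `< n` only.  The flip of the coordinate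
`n` is a homeomorphism `h` of `ℕ → Bool` with `h ⁻¹' C = C`, so `C \ A` and `C \ h ⁻¹' A` are meagre
and there is `S ∈ C ∩ A ∩ h ⁻¹' A`.
-/

set_option autoImplicit false

open Set MeasureTheory Topology

namespace Pool.Agent.H75K

/-- change the coordinate `n` -/
def flip (n : ℕ) (S : ℕ → Bool) : ℕ → Bool := Function.update S n (!S n)

theorem flip_flip (n : ℕ) (S : ℕ → Bool) : flip n (flip n S) = S := by
  unfold flip
  simp

theorem flip_of_ne {n i : ℕ} (h : i ≠ n) (S : ℕ → Bool) : flip n S i = S i := by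
  unfold flip
  exact Function.update_of_ne h _ _

theorem continuous_flip (n : ℕ) : Continuous (flip n) := by
  unfold flip
  refine continuous_id.update n ?_
  exact (continuous_of_discreteTopology (f := not)).comp (continuous_apply n)

theorem isOpenMap_flip (n : ℕ) : IsOpenMap (flip n) := by
  intro U hU
  have h : flip n '' U = flip n ⁻¹' U := by
    ext S
    constructor
    · rintro ⟨T, hT, rfl⟩
      change flip n (flip n T) ∈ U
      rwa [flip_flip]
    · intro hS
      exact ⟨flip n S, hS, flip_flip n S⟩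
  rw [h]
  exact hU.preimage (continuous_flip n)

theorem cantor {Q : Type*} [Countable Q] (Φ : (ℕ → Bool) → Q)
    (h : ∀ q, AnalyticSet (Φ ⁻¹' {q})) : ∃ (n : ℕ) (S : ℕ → Bool), Φ (flip n S) = Φ S := by
  classical
  letI : MeasurableSpace (ℕ → Bool) := borel _
  haveI : BorelSpace (ℕ → Bool) := ⟨rfl⟩
  have hmeas : ∀ q, MeasurableSet (Φ ⁻¹' {q}) := by
    intro q
    refine (h q).measurableSet_of_compl ?_
    have hc : (Φ ⁻¹' {q})ᶜ = ⋃ q' : {q' : Q // q' ≠ q}, Φ ⁻¹' {(q' : Q)} := by
      ext S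
      simp
    rw [hc]
    exact AnalyticSet.iUnion fun q' => h q'
  obtain ⟨q, hq⟩ : ∃ q, ¬ IsMeagre (Φ ⁻¹' {q}) := by
    by_contra hcon
    push Not at hcon
    have h1 : IsMeagre (⋃ q, Φ ⁻¹' {q}) := isMeagre_iUnion hcon
    have h2 : (⋃ q, Φ ⁻¹' {q}) = (Set.univ : Set (ℕ → Bool)) := by
      ext S
      simp
    rw [h2] at h1
    exact not_isMeagre_of_isOpen isOpen_univ Set.univ_nonempty h1
  obtain ⟨U, hU, hAU⟩ := (hmeas q).residualEq_isOpen
  -- the symmetric difference is meagre
  have hR : IsMeagre {S : ℕ → Bool | ¬ (S ∈ Φ ⁻¹' {q} ↔ S ∈ U)} := by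
    have h1 : {S : ℕ → Bool | ¬ (S ∈ Φ ⁻¹' {q} ↔ S ∈ U)}ᶜ ∈ residual (ℕ → Bool) := by
      refine Filter.mem_of_superset hAU ?_
      intro S hS
      have h2 : (Φ ⁻¹' {q}) S = U S := hS
      rw [Set.mem_compl_iff, Set.mem_setOf_eq, not_not]
      exact iff_of_eq h2
    exact h1
  have hUne : U.Nonempty := by
    by_contra hcon
    rw [Set.not_nonempty_iff_eq_empty] at hcon
    refine hq (hR.mono ?_)
    intro S hS
    rw [Set.mem_setOf_eq, hcon]
    simpa using hS
  obtain ⟨x, hx⟩ := hUne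
  obtain ⟨C, ⟨y, n, rfl⟩, hxC, hCU⟩ :=
    (PiNat.isTopologicalBasis_cylinders (fun _ : ℕ => Bool)).exists_subset_of_mem_open hx hU
  have hCopen : IsOpen (PiNat.cylinder y n : Set (ℕ → Bool)) := PiNat.isOpen_cylinder _ y n
  have hCflip : ∀ S : ℕ → Bool, S ∈ PiNat.cylinder y n → flip n S ∈ PiNat.cylinder y n := by
    intro S hS i hi
    rw [flip_of_ne (Nat.ne_of_lt hi)]
    exact hS i hi
  have h1 : IsMeagre ((PiNat.cylinder y n : Set (ℕ → Bool)) \ Φ ⁻¹' {q}) := by
    refine hR.mono ?_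
    rintro S ⟨hS1, hS2⟩
    rw [Set.mem_setOf_eq]
    exact fun h3 => hS2 (h3.2 (hCU hS1))
  have h2 : IsMeagre (flip n ⁻¹' ((PiNat.cylinder y n : Set (ℕ → Bool)) \ Φ ⁻¹' {q})) :=
    h1.preimage_of_isOpenMap (continuous_flip n) (isOpenMap_flip n)
  by_contra hcon
  push Not at hcon
  refine not_isMeagre_of_isOpen hCopen ⟨x, hxC⟩ ((h1.union h2).mono ?_)
  intro S hS
  by_cases hSA : S ∈ Φ ⁻¹' {q}
  · refine Or.inr ⟨hCflip S hS, ?_⟩
    intro h3
    refine hcon n S ?_
    have e1 : Φ (flip n S) = q := h3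
    have e2 : Φ S = q := hSA
    rw [e1, e2]
  · exact Or.inl ⟨hS, hSA⟩

end Pool.Agent.H75K
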