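import Mathlib

/-!
Module K8.  The equational criterion for `(m x) ⊗ a = 0` in `m K ⊗ A`, with words.
-/

set_option autoImplicit false

open scoped TensorProduct

namespace Pool.Agent.H75K

/-- the word `∏ o, (letter o) ^ (d o)` -/
def lin {k : ℕ} (d : Option (Fin k) → ℤ) : FreeGroup (Option (Fin k)) :=
  FreeGroup.of none ^ d none * (List.ofFn fun j : Fin k => FreeGroup.of (some j) ^ d (some j)).prod

theorem lift_lin {K : Type*} [AddCommGroup K] {k : ℕ} (d : Option (Fin k) → ℤ)
    (z : Option (Fin k) → K) :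
    FreeGroup.lift (fun o => Multiplicative.ofAdd (z o)) (lin d) =
      Multiplicative.ofAdd (∑ o, d o • z o) := by
  rw [lin, map_mul, map_zpow, FreeGroup.lift_apply_of, map_list_prod, List.map_ofFn,
    List.prod_ofFn, Fintype.sum_option, ofAdd_add, ofAdd_zsmul, ofAdd_sum]
  congr 1
  refine Finset.prod_congr rfl fun j _ => ?_
  rw [Function.comp_apply, map_zpow, FreeGroup.lift_apply_of, ofAdd_zsmul]

/-- multiplication by `m` -/
def mulBy (K : Type*) [AddCommGroup K] (m : ℕ) : K →ₗ[ℤ] K := (m : ℤ) • LinearMap.id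

/-- a vanishing system: `r` further elements `b i` of `A`, unknowns `y j`, `j < k`, integers
`d j`, `c i j` with `d j • a + ∑ i, c i j • b i = 0` for all `j` -/
structure Sys (A : Type*) [AddCommGroup A] (a : A) where
  r : ℕ
  k : ℕ
  b : Fin r → A
  d : Fin k → ℤ
  c : Fin r → Fin k → ℤ
  h : ∀ j, d j • a + ∑ i, c i j • b i = 0

instance {A : Type*} [AddCommGroup A] [Countable A] (a : A) : Countable (Sys A a) := by
  let f : Sys A a → Σ (r : ℕ) (k : ℕ), (Fin r → A) × (Fin k → ℤ) × (Fin r → Fin k → ℤ) :=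
    fun s => ⟨s.r, s.k, s.b, s.d, s.c⟩
  have hf : Function.Injective f := by
    rintro ⟨r, k, b, d, c, h⟩ ⟨r', k', b', d', c', h'⟩ he
    simp only [f, Sigma.mk.injEq] at he
    obtain ⟨rfl, he⟩ := he
    have he := eq_of_heq he
    simp only [Sigma.mk.injEq] at he
    obtain ⟨rfl, he⟩ := he
    have he := eq_of_heq he
    simp only [Prod.mk.injEq] at he
    obtain ⟨rfl, rfl, rfl⟩ := he
    rfl
  exact hf.countable

/-- the equations of the system: `m x = ∑ j, d j • m y j` and `0 = ∑ j, c i j • m y j` -/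
def Sys.words {A : Type*} [AddCommGroup A] {a : A} (s : Sys A a) (m : ℕ) :
    List (FreeGroup (Option (Fin s.k))) :=
  lin (fun o => o.elim (-(m : ℤ)) (fun j => (m : ℤ) * s.d j)) ::
    List.ofFn fun i => lin (fun o => o.elim 0 (fun j => (m : ℤ) * s.c i j))

theorem words_iff {K A : Type*} [AddCommGroup K] [AddCommGroup A] {a : A} (s : Sys A a) (m : ℕ)
    (x : K) (y : Fin s.k → K) :
    (∀ ω ∈ s.words m,
        FreeGroup.lift (fun o : Option (Fin s.k) => Multiplicative.ofAdd (o.elim x y)) ω = 1) ↔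
      ((m : ℤ) • x = ∑ j, s.d j • ((m : ℤ) • y j)) ∧
        ∀ i, ∑ j, s.c i j • ((m : ℤ) • y j) = 0 := by
  rw [Sys.words, List.forall_mem_cons, List.forall_mem_ofFn_iff]
  refine and_congr ?_ (forall_congr' fun i => ?_)
  · rw [lift_lin, ← ofAdd_zero, Multiplicative.ofAdd.injective.eq_iff, Fintype.sum_option]
    simp only [Option.elim_none, Option.elim_some]
    rw [neg_smul, neg_add_eq_zero]
    have : ∑ j, ((m : ℤ) * s.d j) • y j = ∑ j, s.d j • ((m : ℤ) • y j) :=
      Finset.sum_congr rfl fun j _ => by rw [smul_smul, mul_comm]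
    rw [this]
  · rw [lift_lin, ← ofAdd_zero, Multiplicative.ofAdd.injective.eq_iff, Fintype.sum_option]
    simp only [Option.elim_none, Option.elim_some]
    rw [zero_smul, zero_add]
    have : ∑ j, ((m : ℤ) * s.c i j) • y j = ∑ j, s.c i j • ((m : ℤ) • y j) :=
      Finset.sum_congr rfl fun j _ => by rw [smul_smul, mul_comm]
    rw [this]

/-- Equational criterion for one pure tensor. -/
theorem tmul_zero_sys {M A : Type*} [AddCommGroup M] [AddCommGroup A] (q : M) (a : A)
    (h : q ⊗ₜ[ℤ] a = 0) :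
    ∃ (s : Sys A a) (p : Fin s.k → M), q = ∑ j, s.d j • p j ∧ ∀ i, ∑ j, s.c i j • p j = 0 := by
  classical
  have h' : a ⊗ₜ[ℤ] q = 0 := by
    have := congrArg (TensorProduct.comm ℤ M A) h
    simpa using this
  set G : (A →₀ ℤ) →ₗ[ℤ] A := Finsupp.linearCombination ℤ id with hG
  have hGs : Function.Surjective G := fun b => ⟨Finsupp.single b 1, by simp [hG]⟩
  set en : (A →₀ ℤ) ⊗[ℤ] M := Finsupp.single a 1 ⊗ₜ q with hen
  have hker : en ∈ LinearMap.ker (LinearMap.rTensor M G) := by
    rw [LinearMap.mem_ker, hen, LinearMap.rTensor_tmul]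
    simpa [hG] using h'
  have hex : Function.Exact (LinearMap.rTensor M (LinearMap.ker G).subtype)
      (LinearMap.rTensor M G) :=
    rTensor_exact (M := ↥(LinearMap.ker G)) M G.exact_subtype_ker_map hGs
  have hran : en ∈ LinearMap.range (LinearMap.rTensor M (LinearMap.ker G).subtype) :=
    hex.linearMap_ker_eq ▸ hker
  obtain ⟨kn, hkn⟩ := hran
  obtain ⟨k, κ, p, rfl⟩ := TensorProduct.exists_sum_tmul_eq kn
  -- coefficients
  have hco : ∀ b : A, (if b = a then q else 0) = ∑ j, (κ j : A →₀ ℤ) b • p j := by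
    intro b
    have h1 := congrArg (fun t => (TensorProduct.finsuppScalarLeft ℤ M A t) b) hkn
    simp only [map_sum, LinearMap.rTensor_tmul, Submodule.subtype_apply, hen,
      Finsupp.finsetSum_apply, TensorProduct.finsuppScalarLeft_apply_tmul_apply] at h1
    rw [h1, Finsupp.single_apply]
    by_cases hb : b = a
    · subst hb; simp
    · simp [hb, Ne.symm hb]
  set B : Finset A := (Finset.univ.biUnion fun j => (κ j : A →₀ ℤ).support).erase a with hB
  let e : B ≃ Fin B.card := B.equivFin
  have hsum : ∀ j, (κ j : A →₀ ℤ) a • a + ∑ i, (κ j : A →₀ ℤ) (e.symm i : A) • (e.symm i : A) = 0 := by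
    intro j
    have h1 : G (κ j : A →₀ ℤ) = 0 := LinearMap.mem_ker.mp (κ j).2
    have h1 : ((κ j : A →₀ ℤ).sum fun i c => c • (id i : A)) = 0 := h1
    have h2 : ((κ j : A →₀ ℤ).sum fun i c => c • (id i : A)) =
        ∑ b ∈ insert a B, (κ j : A →₀ ℤ) b • b := by
      refine Finsupp.sum_of_support_subset _ ?_ _ ?_
      · intro b hb
        by_cases hba : b = a
        · exact Finset.mem_insert.mpr (Or.inl hba)
        · refine Finset.mem_insert_of_mem (Finset.mem_erase.mpr ⟨hba, ?_⟩)
          exact Finset.mem_biUnion.mpr ⟨j, Finset.mem_univ _, hb⟩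
      · intro i _; simp
    rw [h2, Finset.sum_insert (by simp [hB])] at h1
    rw [← h1]
    congr 1
    rw [← Finset.sum_coe_sort B]
    exact Equiv.sum_comp e.symm (fun b : B => (κ j : A →₀ ℤ) (b : A) • (b : A))
  refine ⟨⟨B.card, k, fun i => (e.symm i : A), fun j => (κ j : A →₀ ℤ) a,
    fun i j => (κ j : A →₀ ℤ) (e.symm i : A), hsum⟩, p, ?_, ?_⟩
  · have := hco a
    rwa [if_pos rfl] at this
  · intro i
    have hne : (e.symm i : A) ≠ a := (Finset.mem_erase.mp (e.symm i).2).1
    have := hco (e.symm i : A)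
    rw [if_neg hne] at this
    exact this.symm

/-- The criterion.  `TensorProduct.vanishesTrivially_iff_sum_tmul_eq_zero` for a finitely generated
submodule `A'` of `A` which contains `a` and in which the relation already holds
(e.g. `TensorProduct.exists_finite_submodule_...` in `Mathlib/LinearAlgebra/TensorProduct/Finiteness.lean`),
with the generators `a, b 0, …, b (r-1)`; the other direction is
`TensorProduct.sum_tmul_eq_zero_of_vanishesTrivially`. -/
theorem tmul_eq_zero_iff {K A : Type*} [AddCommGroup K] [AddCommGroup A] (m : ℕ) (a : A) (x : K) :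
    ((⟨mulBy K m x, LinearMap.mem_range_self _ x⟩ : LinearMap.range (mulBy K m)) ⊗ₜ[ℤ] a = 0) ↔
      ∃ (s : Sys A a) (y : Fin s.k → K), ∀ ω ∈ s.words m,
        FreeGroup.lift (fun o : Option (Fin s.k) => Multiplicative.ofAdd (o.elim x y)) ω = 1 := by
  constructor
  · intro h
    obtain ⟨s, p, hq, hp⟩ := tmul_zero_sys _ _ h
    have hy : ∀ j, ∃ y : K, mulBy K m y = (p j : K) := fun j => (p j).2
    choose y hy using hy
    refine ⟨s, y, (words_iff s m x y).mpr ⟨?_, ?_⟩⟩
    · have h1 := congrArg (Subtype.val) hq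
      simp only [Submodule.coe_sum, Submodule.coe_smul] at h1
      have h2 : mulBy K m x = (m : ℤ) • x := rfl
      rw [h2] at h1
      rw [h1]
      refine Finset.sum_congr rfl fun j _ => ?_
      rw [← hy j]; rfl
    · intro i
      have h1 := congrArg (Subtype.val) (hp i)
      simp only [Submodule.coe_sum, Submodule.coe_smul, Submodule.coe_zero] at h1
      rw [← h1]
      refine Finset.sum_congr rfl fun j _ => ?_
      rw [← hy j]; rfl
  · rintro ⟨s, y, h⟩
    obtain ⟨h1, h2⟩ := (words_iff s m x y).mp h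
    set p : Fin s.k → LinearMap.range (mulBy K m) :=
      fun j => ⟨mulBy K m (y j), LinearMap.mem_range_self _ _⟩ with hpdef
    have hq : (⟨mulBy K m x, LinearMap.mem_range_self _ x⟩ : LinearMap.range (mulBy K m)) =
        ∑ j, s.d j • p j := by
      apply Subtype.ext
      simp only [Submodule.coe_sum, Submodule.coe_smul]
      exact h1
    have hp : ∀ i, ∑ j, s.c i j • p j = 0 := by
      intro i
      apply Subtype.ext
      simp only [Submodule.coe_sum, Submodule.coe_smul, Submodule.coe_zero]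
      exact h2 i
    rw [hq, TensorProduct.sum_tmul]
    have h3 : ∀ j, (s.d j • p j) ⊗ₜ[ℤ] a = - ∑ i, (s.c i j • p j) ⊗ₜ[ℤ] s.b i := by
      intro j
      have h4 : s.d j • a = - ∑ i, s.c i j • s.b i := eq_neg_of_add_eq_zero_left (s.h j)
      rw [TensorProduct.smul_tmul, h4, TensorProduct.tmul_neg, TensorProduct.tmul_sum]
      congr 1
      exact Finset.sum_congr rfl fun i _ => by rw [TensorProduct.smul_tmul]
    rw [Finset.sum_congr rfl fun j _ => h3 j, Finset.sum_neg_distrib, Finset.sum_comm]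
    rw [neg_eq_zero]
    refine Finset.sum_eq_zero fun i _ => ?_
    rw [← TensorProduct.sum_tmul, hp i, TensorProduct.zero_tmul]

end Pool.Agent.H75K
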