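import Mathlib

/-!
# Analytic subsets of a free group (MP_6f575e_gt)

`G` is a Hausdorff topological group which is the image of a Polish space `X` under a continuous
map `π`.  A subset `A` of the free group on the set `G` is called analytic when for every abstract
word `τ` in `n` letters the set of the `x : Fin n → X` with `τ(π x₁, …, π xₙ) ∈ A` is analytic.
-/

set_option autoImplicit false

open scoped commutatorElement
open Set MeasureTheory

namespace Pool.Agent.H75K

/-- the value of abstract words at the letters `π (x i)` -/
def val {X G : Type} (π : X → G) {ι : Type} (x : ι → X) : FreeGroup ι →* FreeGroup G :=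
  FreeGroup.map (fun i => π (x i))

/-- analytic subsets of the free group -/
def Ana {X G : Type} [TopologicalSpace X] (π : X → G) (A : Set (FreeGroup G)) : Prop :=
  ∀ (n : ℕ) (τ : FreeGroup (Fin n)), AnalyticSet {x : Fin n → X | val π x τ ∈ A}

/-- the evaluation `FreeGroup G → G` -/
def ev (G : Type) [Group G] : FreeGroup G →* G := FreeGroup.lift id

end Pool.Agent.H75K
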