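import Pool.Agent.H75K.Defs

/-!
Module K3.  Hopf's formula for the kernel of a universal central extension.
-/

set_option autoImplicit false

open scoped commutatorElement
open Set

namespace Pool.Agent.H75K

section

variable {G : Type} [Group G]

/-- `⁅⊤, ker⁆` -/
abbrev DD (G : Type) [Group G] : Subgroup (FreeGroup G) := ⁅(⊤ : Subgroup (FreeGroup G)), (ev G).ker⁆

/-- `ker ⊓ [F, F]` -/
abbrev TT (G : Type) [Group G] : Subgroup (FreeGroup G) := (ev G).ker ⊓ commutator (FreeGroup G)

/-- every central extension of `G` is a quotient of `E` over `G` -/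
def Universal {E : Type*} [Group E] (p : E →* G) : Prop :=
  ∀ (E' : Type) [Group E'] (q : E' →* G), Function.Surjective q → q.ker ≤ Subgroup.center E' →
    ∃ t : E →* E', ∀ x, q (t x) = p x

/-- commutators do not see central factors -/
theorem hopf_comm_eq {E : Type*} [Group E] {a b a' b' : E} (ha : a⁻¹ * a' ∈ Subgroup.center E)
    (hb : b⁻¹ * b' ∈ Subgroup.center E) : ⁅a', b'⁆ = ⁅a, b⁆ := by
  have h1 := Subgroup.mem_center_iff.mp ha
  have h2 := Subgroup.mem_center_iff.mp hb
  obtain ⟨c, hc⟩ : ∃ c, c = a⁻¹ * a' := ⟨_, rfl⟩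
  obtain ⟨d, hd⟩ : ∃ d, d = b⁻¹ * b' := ⟨_, rfl⟩
  rw [← hc] at h1
  rw [← hd] at h2
  have ea : a' = a * c := by rw [hc]; group
  have eb : b' = b * d := by rw [hd]; group
  rw [ea, eb, commutatorElement_def, commutatorElement_def, mul_inv_rev, mul_inv_rev]
  have e1 : a * c * (b * d) * (c⁻¹ * a⁻¹) * (d⁻¹ * b⁻¹) =
      a * (c * (b * d)) * c⁻¹ * a⁻¹ * d⁻¹ * b⁻¹ := by group
  have e2 : a * (b * d * c) * c⁻¹ * a⁻¹ * d⁻¹ * b⁻¹ = a * b * (d * (a⁻¹ * d⁻¹)) * b⁻¹ := by group
  rw [e1, ← h1 (b * d), e2, ← h2 (a⁻¹ * d⁻¹)]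
  group

variable {E : Type*} [Group E] {p : E →* G} {s : G → E} (hs : ∀ g, p (s g) = g)

include hs in
theorem p_lift (f : FreeGroup G) : p (FreeGroup.lift s f) = ev G f := by
  have h : p.comp (FreeGroup.lift s) = ev G := by
    ext g
    simp [ev, hs]
  rw [← h]
  rfl

include hs in
theorem lift_D (hc : p.ker ≤ Subgroup.center E) {f : FreeGroup G} (hf : f ∈ DD G) :
    FreeGroup.lift s f = 1 := by
  have h : DD G ≤ (FreeGroup.lift s).ker := by
    rw [Subgroup.commutator_le]
    intro x _ r hr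
    have hr' : FreeGroup.lift s r ∈ Subgroup.center E := by
      apply hc
      rw [MonoidHom.mem_ker, p_lift hs]
      exact hr
    rw [MonoidHom.mem_ker, map_commutatorElement, commutatorElement_eq_one_iff_mul_comm]
    exact Subgroup.mem_center_iff.mp hr' _
  exact h hf

include hs in
theorem mem_D_of_lift (hu : Universal p) {f : FreeGroup G} (hf : f ∈ TT G)
    (h : FreeGroup.lift s f = 1) : f ∈ DD G := by
  have hle : DD G ≤ (ev G).ker := Subgroup.commutator_le_right _ _
  let q : (FreeGroup G ⧸ DD G) →* G := QuotientGroup.lift (DD G) (ev G) (fun x hx => hle hx)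
  have hq : ∀ x : FreeGroup G, q (QuotientGroup.mk' (DD G) x) = ev G x := fun x => rfl
  have hqs : Function.Surjective q := by
    intro g
    refine ⟨QuotientGroup.mk' (DD G) (FreeGroup.of g), ?_⟩
    rw [hq]
    simp [ev]
  have hqc : q.ker ≤ Subgroup.center (FreeGroup G ⧸ DD G) := by
    intro y hy
    obtain ⟨r, rfl⟩ := QuotientGroup.mk'_surjective (DD G) y
    have hr : r ∈ (ev G).ker := by
      rw [MonoidHom.mem_ker] at hy ⊢
      rw [← hq]
      exact hy
    rw [Subgroup.mem_center_iff]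
    intro z
    obtain ⟨x, rfl⟩ := QuotientGroup.mk'_surjective (DD G) z
    have h1 : ⁅x, r⁆ ∈ DD G := Subgroup.commutator_mem_commutator (Subgroup.mem_top x) hr
    have h2 : QuotientGroup.mk' (DD G) ⁅x, r⁆ = 1 := by
      rw [← MonoidHom.mem_ker, QuotientGroup.ker_mk']
      exact h1
    rw [map_commutatorElement, commutatorElement_eq_one_iff_mul_comm] at h2
    exact h2
  obtain ⟨t, ht⟩ := hu (FreeGroup G ⧸ DD G) q hqs hqc
  have hdiff : ∀ x : FreeGroup G,
      (QuotientGroup.mk' (DD G) x)⁻¹ * t (FreeGroup.lift s x) ∈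
        Subgroup.center (FreeGroup G ⧸ DD G) := by
    intro x
    apply hqc
    rw [MonoidHom.mem_ker, map_mul, map_inv, hq, ht, p_lift hs, inv_mul_cancel]
  have hcomm : commutator (FreeGroup G) ≤
      (t.comp (FreeGroup.lift s)).eqLocus (QuotientGroup.mk' (DD G)) := by
    rw [commutator_def, Subgroup.commutator_le]
    intro x _ y _
    change t (FreeGroup.lift s ⁅x, y⁆) = QuotientGroup.mk' (DD G) ⁅x, y⁆
    rw [map_commutatorElement, map_commutatorElement, map_commutatorElement]
    exact hopf_comm_eq (hdiff x) (hdiff y)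
  have h3 : t (FreeGroup.lift s f) = QuotientGroup.mk' (DD G) f := hcomm hf.2
  rw [h, map_one] at h3
  rw [← QuotientGroup.ker_mk' (DD G), MonoidHom.mem_ker]
  exact h3.symm

include hs in
theorem exists_T (hc : p.ker ≤ Subgroup.center E) (hE : commutator E = ⊤) {z : E}
    (hz : z ∈ p.ker) : ∃ f ∈ TT G, FreeGroup.lift s f = z := by
  have hle : commutator E ≤ (commutator (FreeGroup G)).map (FreeGroup.lift s) := by
    rw [commutator_def, Subgroup.commutator_le]
    intro a _ b _
    have hk : ∀ a : E, (s (p a))⁻¹ * a ∈ Subgroup.center E := by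
      intro a
      apply hc
      rw [MonoidHom.mem_ker, map_mul, map_inv, hs, inv_mul_cancel]
    refine ⟨⁅FreeGroup.of (p a), FreeGroup.of (p b)⁆, ?_, ?_⟩
    · rw [commutator_def]
      exact Subgroup.commutator_mem_commutator (Subgroup.mem_top _) (Subgroup.mem_top _)
    · rw [map_commutatorElement, FreeGroup.lift_apply_of, FreeGroup.lift_apply_of]
      exact (hopf_comm_eq (hk a) (hk b)).symm
  have hz' : z ∈ commutator E := by rw [hE]; exact Subgroup.mem_top z
  obtain ⟨f, hf, hfz⟩ := hle hz'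
  have h1 := p_lift hs f
  rw [hfz] at h1
  have h2 : f ∈ (ev G).ker := by
    rw [MonoidHom.mem_ker, ← h1]
    exact hz
  exact ⟨f, ⟨h2, hf⟩, hfz⟩

end

end Pool.Agent.H75K
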