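import Pool.Agent.H75K.Cantor
import Pool.Agent.H75G.Gen

/-!
Module K5.  Infinite products of small relations, indexed by subsets of `ℕ`.
-/

set_option autoImplicit false

open scoped ContDiff commutatorElement
open Set Filter Topology

namespace Pool.Agent.H75K

open Pool.Agent.H45F Pool.Agent.H75S Pool.Agent.H75T Pool.Agent.H75B Pool.Agent.H75G

theorem layer_congr {N : ℕ → ℕ} {s : ℝ} {a a' : ℕ → ℂ → ℂ} (n : ℕ) :
    ∀ m, a (m + n) = a' (m + n) → layer N s a n m = layer N s a' n m := by
  induction n with
  | zero =>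
    intro m h
    rw [add_zero] at h
    simp only [layer, h]
  | succ n ih =>
    intro m h
    have h1 : layer N s a n (m + 1) = layer N s a' n (m + 1) := by
      apply ih
      have e : m + 1 + n = m + (n + 1) := by ring
      rw [e, h]
    funext z
    simp only [layer, h1]

theorem U_congr {N : ℕ → ℕ} {s : ℝ} {a a' : ℕ → ℂ → ℂ} (m : ℕ)
    (h : ∀ l, m ≤ l → a l = a' l) : U N s a m = U N s a' m := by
  funext z
  unfold U
  congr 1
  funext n
  rw [layer_congr n m (h _ (Nat.le_add_right _ _))]

theorem flip_ne {n l : ℕ} (h : l ≠ n) (S : ℕ → Bool) : flip n S l = S l :=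
  Function.update_of_ne h _ _

theorem flip_same (n : ℕ) (S : ℕ → Bool) : flip n S n = !S n := Function.update_self _ _ _

/-- Let `L` be a subgroup of the kernel which does not contain all the classes of genus two with
holonomy in `Small 1 r ε`, for any `r`, `ε`.  Then there are four families of diffeomorphisms
`α S i`, `β S i`, `S : ℕ → Bool`, such that the product of the commutators is `1`, the class changes
by an element which is not in `L` when one coordinate of `S` is changed, and for each `z` the value
at `z` is a continuous function of `S`. -/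
theorem exists_family {E : Type*} [Group E] (p : E →* DiffC) (hp : Function.Surjective p)
    (hc : p.ker ≤ Subgroup.center E) (hE : commutator E = ⊤) (L : Subgroup E)
    (hL : ∀ (r : ℕ) (ε : ℝ), 0 < ε → ¬ GT p r ε ⊆ L) :
    ∃ α β : (ℕ → Bool) → Fin 2 → DiffC,
      (∀ S, wd (α S) (β S) = 1) ∧
      (∀ i (z : ℂ), Continuous fun S => (α S i : Equiv.Perm ℂ) z) ∧
      (∀ i (z : ℂ), Continuous fun S => (β S i : Equiv.Perm ℂ) z) ∧
      ∀ n S, om p hp (α S) (β S) * (om p hp (α (flip n S)) (β (flip n S)))⁻¹ ∉ L := by
  classical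
  have hneg : ∀ (r : ℕ) (ε : ℝ), ∃ x y : Fin 2 → E, 0 < ε → (∀ i, Small 1 r ε (p (x i))) ∧
      (∀ i, Small 1 r ε (p (y i))) ∧ wd x y ∈ p.ker ∧ wd x y ∉ L := by
    intro r ε
    by_cases hε : 0 < ε
    · obtain ⟨z, hz, hzL⟩ := Set.not_subset.mp (hL r ε hε)
      obtain ⟨hk, A, B, F, T, e, h1, h2, h3, h4⟩ := hz
      have hw : wd ![A, F] ![B, T] = z := by
        rw [e]
        simp [wd, List.finRange_succ]
      refine ⟨![A, F], ![B, T], fun _ => ⟨?_, ?_, ?_, ?_⟩⟩
      · intro i; fin_cases i
        · exact h1
        · exact h3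
      · intro i; fin_cases i
        · exact h2
        · exact h4
      · rw [hw]; exact hk
      · rw [hw]; exact hzL
    · exact ⟨fun _ => 1, fun _ => 1, fun h => absurd h hε⟩
  choose X Y hXY using hneg
  have hs : (0 : ℝ) < 1 / 4 := by norm_num
  set s : ℝ := 1 / 4 with hsdef
  let N : ℕ → ℕ := fun _ => 1
  let M : ℕ → ℕ := fun _ => 1
  let x : (ℕ → Bool) → Fin 2 → ℕ → E := fun S i m => if S m then X (m + 1) (eta s m 1) i else 1
  let y : (ℕ → Bool) → Fin 2 → ℕ → E := fun S i m => if S m then Y (m + 1) (eta s m 1) i else 1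
  let a : (ℕ → Bool) → Fin 2 → ℕ → ℂ → ℂ := fun S i m z => (p (x S i m) : Equiv.Perm ℂ) z - z
  let b : (ℕ → Bool) → Fin 2 → ℕ → ℂ → ℂ := fun S i m z => (p (y S i m) : Equiv.Perm ℂ) z - z
  let v : ℕ → E := fun l => wd (X (l + 1) (eta s l 1)) (Y (l + 1) (eta s l 1))
  have heta : ∀ l, 0 < eta s l 1 := fun l => eta_pos hs l le_rfl
  have hv : ∀ l, v l ∈ p.ker ∧ v l ∉ L := fun l => (hXY _ _ (heta l)).2.2
  have hxs : ∀ S i m, Small 1 (m + 1) (eta s m (M m)) (p (x S i m)) := by
    intro S i m
    by_cases hF : S m = true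
    · simp only [x, if_pos hF]
      exact (hXY _ _ (heta m)).1 i
    · simp only [x, if_neg hF, map_one]
      exact Small.one (heta m).le
  have hys : ∀ S i m, Small 1 (m + 1) (eta s m (M m)) (p (y S i m)) := by
    intro S i m
    by_cases hF : S m = true
    · simp only [y, if_pos hF]
      exact (hXY _ _ (heta m)).2.1 i
    · simp only [y, if_neg hF, map_one]
      exact Small.one (heta m).le
  have hdat : ∀ f : ℕ → DiffC, (∀ m, Small 1 (m + 1) (eta s m (M m)) (f m)) →
      Dat N M s 1 (fun m z => (f m : Equiv.Perm ℂ) z - z) := by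
    intro f hf
    refine ⟨fun _ => le_rfl, le_rfl, fun _ => rfl, hs, by norm_num [hsdef], by norm_num [hsdef],
      fun m => ?_, fun m z hz => ?_, fun m j hj z => ?_⟩
    · exact (f m).2.1.sub contDiff_id
    · rw [(hf m).1 z hz, sub_self]
    · exact (hf m).2 j hj z
  have hZ : Dat N M s 1 (fun _ _ => 0) := by
    have h := hdat (fun _ => 1) (fun m => Small.one (heta m).le)
    have e : (fun (m : ℕ) (z : ℂ) => (((1 : DiffC) : Equiv.Perm ℂ) z - z)) = fun _ _ => 0 := by
      funext m z; simp
    rwa [e] at h
  have hA : ∀ S i, Dat N M s 1 (a S i) := fun S i => hdat (fun m => p (x S i m)) (hxs S i)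
  have hB : ∀ S i, Dat N M s 1 (b S i) := fun S i => hdat (fun m => p (y S i m)) (hys S i)
  have hda : ∀ S i m, dif (a S i m) = p (x S i m) := by
    intro S i m
    apply diffC_ext
    intro z
    rw [dif_app ((hA S i).good_a m)]
    simp only [a]; ring
  have hdb : ∀ S i m, dif (b S i m) = p (y S i m) := by
    intro S i m
    apply diffC_ext
    intro z
    rw [dif_app ((hB S i).good_a m)]
    simp only [b]; ring
  have hmem : ∀ S m, wd (fun i => x S i m) (fun i => y S i m) = if S m then v m else 1 := by
    intro S m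
    by_cases hF : S m = true
    · simp only [x, y, if_pos hF]; rfl
    · simp only [x, y, if_neg hF]
      rw [wd_one]
  have hL1 : ∀ S m, wd (fun i => dif (a S i m)) (fun i => dif (b S i m)) = 1 := by
    intro S m
    have h1 : p (wd (fun i => x S i m) (fun i => y S i m)) = 1 := by
      rw [hmem]
      by_cases hF : S m = true
      · rw [if_pos hF]; exact (hv m).1
      · rw [if_neg hF, map_one]
    rw [map_wd] at h1
    simp only [hda, hdb]
    exact h1
  have homL : ∀ S m, om p hp (fun i => dif (a S i m)) (fun i => dif (b S i m)) =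
      if S m then v m else 1 := by
    intro S m
    rw [← hmem S m, ← om_eq p hp hc (x := fun i => x S i m) (y := fun i => y S i m)]
    · intro i; exact (hda S i m).symm
    · intro i; exact (hdb S i m).symm
  let V : (ℕ → Bool) → ℕ → E := fun S m =>
    om p hp (fun i => dif (U N s (a S i) m)) (fun i => dif (U N s (b S i) m))
  have hVker : ∀ S m, V S m ∈ p.ker := by
    intro S m
    rw [MonoidHom.mem_ker, p_om]
    exact wd_U hZ (hA S) (hB S) p hp hc hE (hL1 S) m
  have hV : ∀ S m, V S m = (if S m then v m else 1) * V S (m + 1) := by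
    intro S m
    have h1 := om_U hZ (hA S) (hB S) p hp hc hE (hL1 S) m
    rw [homL, pow_one] at h1
    exact h1
  have hcoord : ∀ S S' : ℕ → Bool, ∀ m, (∀ l, m ≤ l → S l = S' l) → V S m = V S' m := by
    intro S S' m h
    have h1 : ∀ i, U N s (a S i) m = U N s (a S' i) m := fun i =>
      U_congr m fun l hl => by simp only [a, x, h l hl]
    have h2 : ∀ i, U N s (b S i) m = U N s (b S' i) m := fun i =>
      U_congr m fun l hl => by simp only [b, y, h l hl]
    simp only [V, h1, h2]
  have hflip : ∀ n S d, d ≤ n → V S (n - d) * (V (flip n S) (n - d))⁻¹ ∉ L := by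
    intro n S d
    induction d with
    | zero =>
      intro _
      rw [Nat.sub_zero, hV S n, hV (flip n S) n, flip_same]
      have h1 : V (flip n S) (n + 1) = V S (n + 1) :=
        hcoord _ _ _ fun l hl => flip_ne (by omega) S
      rw [h1]
      by_cases hF : S n = true
      · rw [hF]
        simp only [Bool.not_true, if_true, Bool.false_eq_true, if_false, one_mul]
        rw [mul_inv_cancel_right]
        exact (hv n).2
      · have hF' : S n = false := by simpa using hF
        rw [hF']
        simp only [Bool.not_false, if_true, Bool.false_eq_true, if_false, one_mul]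
        rw [mul_inv_rev, mul_inv_cancel_left]
        exact fun h => (hv n).2 (by simpa using L.inv_mem h)
    | succ d ih =>
      intro hd
      have h0 := ih (by omega)
      have e : n - d = n - (d + 1) + 1 := by omega
      rw [e] at h0
      rw [hV S, hV (flip n S), flip_ne (by omega)]
      intro h
      apply h0
      have hcen : V S (n - (d + 1) + 1) * (V (flip n S) (n - (d + 1) + 1))⁻¹ ∈ Subgroup.center E :=
        hc (p.ker.mul_mem (hVker _ _) (p.ker.inv_mem (hVker _ _)))
      have h2 := Subgroup.mem_center_iff.mp hcen (if S (n - (d + 1)) then v (n - (d + 1)) else 1)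
      have e2 : V S (n - (d + 1) + 1) * (V (flip n S) (n - (d + 1) + 1))⁻¹ =
          (if S (n - (d + 1)) then v (n - (d + 1)) else 1) * V S (n - (d + 1) + 1) *
            ((if S (n - (d + 1)) then v (n - (d + 1)) else 1) *
              V (flip n S) (n - (d + 1) + 1))⁻¹ := by
        rw [mul_inv_rev]
        rw [← mul_assoc, mul_assoc _ (V S _) _, h2, mul_inv_cancel_right]
      rw [e2]
      exact h
  have hcont : ∀ (c : (ℕ → Bool) → ℕ → ℂ → ℂ), (∀ S, Dat N M s 1 (c S)) →
      (∀ S S' m, S m = S' m → c S m = c S' m) → ∀ z : ℂ,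
      Continuous fun S => (dif (U N s (c S) 0) : Equiv.Perm ℂ) z := by
    intro c hcd hcc z
    have e : (fun S => (dif (U N s (c S) 0) : Equiv.Perm ℂ) z) =
        fun S => z + ∑' n, layer N s (c S) n 0 z := by
      funext S
      rw [dif_app ((hcd S).good_U 0)]; rfl
    rw [e]
    refine continuous_const.add ?_
    refine continuous_tsum (u := fun n : ℕ => ((1 : ℝ) / 2) ^ (0 + n)) (fun n => ?_)
      (Dat.summable_geom 0) (fun n S => (hcd S).layer_norm n 0 z)
    have e2 : (fun S => layer N s (c S) n 0 z) =
        (fun t : Bool => layer N s (c fun _ => t) n 0 z) ∘ fun S : ℕ → Bool => S n := by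
      funext S
      rw [Function.comp_apply, layer_congr n 0 (a' := c fun _ => S n)]
      rw [zero_add]
      exact hcc _ _ _ rfl
    rw [e2]
    exact continuous_of_discreteTopology.comp (continuous_apply n)
  refine ⟨fun S i => dif (U N s (a S i) 0), fun S i => dif (U N s (b S i) 0), fun S => ?_,
    fun i z => ?_, fun i z => ?_, fun n S => ?_⟩
  · exact wd_U hZ (hA S) (hB S) p hp hc hE (hL1 S) 0
  · exact hcont (fun S => a S i) (fun S => hA S i) (fun S S' m h => by simp only [a, x, h]) z
  · exact hcont (fun S => b S i) (fun S => hB S i) (fun S S' m h => by simp only [b, y, h]) z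
  · have h := hflip n S n le_rfl
    rw [Nat.sub_self] at h
    exact h

end Pool.Agent.H75K
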