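import Pool.Agent.H75K.Ana
import Pool.Agent.H75K.Hopf
import Pool.Agent.H75K.Seq

set_option autoImplicit false

open scoped commutatorElement
open Set MeasureTheory Topology

namespace Pool.Agent.H75K

open Pool.Agent.H45F Pool.Agent.H75S Pool.Agent.H75T Pool.Agent.H75B Pool.Agent.H75G

instance : PolishSpace Bool := by
  have h : IsClosedEmbedding (fun b : Bool => if b then (1 : ℕ) else 0) := by
    refine Topology.IsClosedEmbedding.of_continuous_injective_isClosedMap
      continuous_of_discreteTopology ?_ (fun s _ => isClosed_discrete _)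
    intro a b h
    cases a <;> cases b <;> simp_all
  exact h.polishSpace

/-- a Polish space which is mapped onto `DiffC` -/
abbrev PS : Type := Σ n : ℕ, discSub (n : ℝ)

instance : PolishSpace PS := by
  have : ∀ n : ℕ, PolishSpace (discSub (n : ℝ)) := fun n => polish_discSub _
  infer_instance

/-- the map from `PS` to `DiffC` -/
def pr (x : PS) : DiffC := (x.2 : DiffC)

theorem continuous_pr : Continuous pr :=
  continuous_sigma fun _ => continuous_subtype_val

theorem pr_surjective : Function.Surjective pr := by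
  intro g
  obtain ⟨R, hR⟩ := exists_radius_list [g]
  obtain ⟨n, hn⟩ := exists_nat_ge R
  exact ⟨⟨n, ⟨g, discSub_mono hn (hR g (by simp))⟩⟩, rfl⟩

theorem continuous_apply_diffC (z : ℂ) : Continuous fun g : DiffC => (g : Equiv.Perm ℂ) z := by
  have h1 : (fun g : DiffC => (g : Equiv.Perm ℂ) z) = fun g => emb g ([], true) z := rfl
  rw [h1]
  exact (continuous_eval_const z).comp
    ((continuous_apply _).comp isInducing_emb.continuous)

section

variable {E : Type*} [Group E] (p : E →* DiffC) (hp : Function.Surjective p)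
  (hc : p.ker ≤ Subgroup.center E) (hE : commutator E = ⊤)

/-- the word of genus two -/
def W4 : FreeGroup (Fin 2 × Bool) :=
  wd (fun i => FreeGroup.of (i, false)) (fun i => FreeGroup.of (i, true))

theorem val_W4 (x : Fin 2 × Bool → PS) : val pr x W4 =
    wd (fun i => FreeGroup.of (pr (x (i, false)))) (fun i => FreeGroup.of (pr (x (i, true)))) := by
  unfold W4 val
  rw [map_wd]
  simp

theorem wd_mem_commutator {H : Type*} [Group H] {k : ℕ} (f g : Fin k → H) :
    wd f g ∈ commutator H := by
  unfold wd
  apply Subgroup.list_prod_mem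
  intro x hx
  rw [List.mem_map] at hx
  obtain ⟨i, _, rfl⟩ := hx
  exact Subgroup.commutator_mem_commutator (Subgroup.mem_top _) (Subgroup.mem_top _)

theorem lift_W4 (x : Fin 2 × Bool → PS) : FreeGroup.lift (lft p hp) (val pr x W4) =
    om p hp (fun i => pr (x (i, false))) (fun i => pr (x (i, true))) := by
  rw [val_W4, map_wd]
  unfold om
  simp

include hc hE in
/-- a subgroup with analytic preimage and countable index in the kernel is the whole kernel -/
theorem core (L : Subgroup E)
    (hA : Ana pr {f | f ∈ TT DiffC ∧ FreeGroup.lift (lft p hp) f ∈ L})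
    (hcount : Countable (p.ker ⧸ L.subgroupOf p.ker)) : p.ker ≤ L := by
  classical
  by_contra hcon
  have hL : ∀ (r : ℕ) (ε : ℝ), 0 < ε → ¬ GT p r ε ⊆ L := by
    intro r ε hε h
    apply hcon
    rw [← closure_GT p hp hc hE r hε]
    exact (Subgroup.closure_le L).mpr h
  obtain ⟨α, β, h1, h2, h3, h4⟩ := exists_family p hp hc hE L hL
  have hmem : ∀ S, om p hp (α S) (β S) ∈ p.ker := by
    intro S
    rw [MonoidHom.mem_ker, p_om, h1]
  let Φ : (ℕ → Bool) → p.ker ⧸ L.subgroupOf p.ker := fun S =>
    QuotientGroup.mk ⟨om p hp (α S) (β S), hmem S⟩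
  have hΦ : ∀ q, AnalyticSet (Φ ⁻¹' {q}) := by
    intro q
    obtain ⟨k, rfl⟩ := QuotientGroup.mk_surjective q
    obtain ⟨f₀, hf₀, hk⟩ := exists_T (G := DiffC) (s := lft p hp) (p_lft p hp) hc hE k.2
    set A : Set (FreeGroup DiffC) := {f | f ∈ TT DiffC ∧ FreeGroup.lift (lft p hp) f ∈ L} with hAdef
    have hB : AnalyticSet {x : Fin 2 × Bool → PS | val pr x W4 ∈ {f | f₀⁻¹ * f ∈ A}} :=
      (hA.translate pr_surjective f₀).fintype W4
    have e : Φ ⁻¹' {(QuotientGroup.mk k : p.ker ⧸ L.subgroupOf p.ker)} =
        (fun q : (ℕ → Bool) × (Fin 2 × Bool → PS) => q.1) ''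
          (⋂ t : Bool, if t then {q : (ℕ → Bool) × (Fin 2 × Bool → PS) |
              (∀ i, pr (q.2 (i, false)) = α q.1 i) ∧ ∀ i, pr (q.2 (i, true)) = β q.1 i}
            else (fun q : (ℕ → Bool) × (Fin 2 × Bool → PS) => q.2) ⁻¹'
              {x | val pr x W4 ∈ {f | f₀⁻¹ * f ∈ A}}) := by
      ext S
      constructor
      · intro hS
        have hS' : (QuotientGroup.mk k : p.ker ⧸ L.subgroupOf p.ker) = Φ S := hS.symm
        have hS2 : k⁻¹ * ⟨om p hp (α S) (β S), hmem S⟩ ∈ L.subgroupOf p.ker :=
          QuotientGroup.eq.mp hS'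
        choose u hu using fun i => pr_surjective (α S i)
        choose w hw using fun i => pr_surjective (β S i)
        refine ⟨(S, fun q => if q.2 then w q.1 else u q.1), ?_, rfl⟩
        rw [mem_iInter]
        intro t
        cases t
        · simp only [Bool.false_eq_true, if_false, mem_preimage, Set.mem_ofPred_eq]
          have hval : FreeGroup.lift (lft p hp) (val pr (fun q : Fin 2 × Bool =>
              if q.2 then w q.1 else u q.1) W4) = om p hp (α S) (β S) := by
            rw [lift_W4]
            simp [hu, hw]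
          refine ⟨⟨?_, ?_⟩, ?_⟩
          · change _ ∈ (ev DiffC).ker
            rw [MonoidHom.mem_ker, map_mul, map_inv, hf₀.1, inv_one, one_mul,
              ← Pool.Agent.H75K.p_lift (s := lft p hp) (p_lft p hp), hval, p_om, h1]
          · refine (commutator (FreeGroup DiffC)).mul_mem ((commutator _).inv_mem hf₀.2) ?_
            rw [val_W4]
            exact wd_mem_commutator _ _
          · rw [map_mul, map_inv, hk, hval]
            exact hS2
        · simp only [if_true, Set.mem_ofPred_eq]
          simp [hu, hw]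
      · rintro ⟨⟨S', x⟩, hx, rfl⟩
        rw [mem_iInter] at hx
        have hx1 := hx true
        have hx2 := hx false
        simp only [if_true, Set.mem_ofPred_eq] at hx1
        simp only [Bool.false_eq_true, if_false, mem_preimage, Set.mem_ofPred_eq] at hx2
        obtain ⟨-, hx3⟩ := hx2
        rw [map_mul, map_inv, hk, lift_W4] at hx3
        have e1 : (fun i => pr (x (i, false))) = α S' := funext hx1.1
        have e2 : (fun i => pr (x (i, true))) = β S' := funext hx1.2
        rw [e1, e2] at hx3
        change Φ S' = QuotientGroup.mk k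
        symm
        exact QuotientGroup.eq.mpr hx3
    rw [e]
    refine AnalyticSet.image_of_continuous ?_ continuous_fst
    refine AnalyticSet.iInter fun t => ?_
    cases t
    · simp only [Bool.false_eq_true, if_false]
      exact AnalyticSet.preimage hB continuous_snd
    · simp only [if_true]
      apply IsClosed.analyticSet
      have hcl : ∀ (γ : (ℕ → Bool) → Fin 2 → DiffC) (t : Bool),
          (∀ i (z : ℂ), Continuous fun S => (γ S i : Equiv.Perm ℂ) z) →
          IsClosed {q : (ℕ → Bool) × (Fin 2 × Bool → PS) | ∀ i, pr (q.2 (i, t)) = γ q.1 i} := by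
        intro γ t hγ
        have e3 : {q : (ℕ → Bool) × (Fin 2 × Bool → PS) | ∀ i, pr (q.2 (i, t)) = γ q.1 i} =
            ⋂ i, ⋂ z : ℂ, {q | ((pr (q.2 (i, t)) : DiffC) : Equiv.Perm ℂ) z =
              (γ q.1 i : Equiv.Perm ℂ) z} := by
          ext q
          simp only [Set.mem_ofPred_eq, mem_iInter]
          constructor
          · intro h i z
            rw [h i]
          · intro h i
            exact diffC_ext (h i)
        rw [e3]
        refine isClosed_iInter fun i => isClosed_iInter fun z => isClosed_eq ?_ ?_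
        · exact (continuous_apply_diffC z).comp (continuous_pr.comp
            ((continuous_apply _).comp continuous_snd))
        · exact (hγ i z).comp continuous_fst
      exact (hcl α false h2).inter (hcl β true h3)
  obtain ⟨n, S, hn⟩ := cantor Φ hΦ
  apply h4 n S
  have h5 : (⟨om p hp (α (flip n S)) (β (flip n S)), hmem _⟩ : p.ker)⁻¹ *
      ⟨om p hp (α S) (β S), hmem S⟩ ∈ L.subgroupOf p.ker := QuotientGroup.eq.mp hn
  have h6 : (om p hp (α (flip n S)) (β (flip n S)))⁻¹ * om p hp (α S) (β S) ∈ L := h5
  have h7 := Subgroup.mem_center_iff.mp (hc (hmem S)) (om p hp (α (flip n S)) (β (flip n S)))⁻¹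
  rw [h7] at h6
  exact h6

include hp hc hE in
/-- **The kernel of the universal central extension**: subgroups of roots of powers. -/
theorem main (hu : Universal p) (J : Set ℕ) (n : ℕ) (L : Subgroup p.ker)
    (hL : ∀ z : p.ker, z ∈ L ↔ ∃ m ∈ J, ∃ y : p.ker, z ^ m = y ^ n)
    (hcount : Countable (p.ker ⧸ L)) : L = ⊤ := by
  classical
  have hcomap : (L.map p.ker.subtype).subgroupOf p.ker = L :=
    Subgroup.comap_map_eq_self_of_injective p.ker.subtype_injective L
  have key : p.ker ≤ L.map p.ker.subtype := by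
    refine core p hp hc hE _ ?_ (by rw [hcomap]; exact hcount)
    have hT := ana_T (π := pr) continuous_pr pr_surjective
    have hD := ana_D (π := pr) continuous_pr pr_surjective
    have h1 : Ana pr {f : FreeGroup DiffC | ∃ a ∈ {f | ∃ t ∈ ((TT DiffC : Subgroup _) :
        Set (FreeGroup DiffC)), f = t ^ n}, ∃ b ∈ ((DD DiffC : Subgroup _) :
        Set (FreeGroup DiffC)), f = a * b} :=
      (hT.pow continuous_pr pr_surjective n).mul continuous_pr pr_surjective hD
    have h2 := hT.inter (Ana.iUnion fun m : J => h1.pow_preimage (m : ℕ))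
    suffices hset : {f : FreeGroup DiffC | f ∈ TT DiffC ∧
        FreeGroup.lift (lft p hp) f ∈ L.map p.ker.subtype} =
        ((TT DiffC : Subgroup _) : Set (FreeGroup DiffC)) ∩ ⋃ m : J,
        {f | f ^ (m : ℕ) ∈ {f : FreeGroup DiffC | ∃ a ∈ {f | ∃ t ∈ ((TT DiffC : Subgroup _) :
        Set (FreeGroup DiffC)), f = t ^ n}, ∃ b ∈ ((DD DiffC : Subgroup _) :
        Set (FreeGroup DiffC)), f = a * b}} by
      rw [hset]; exact h2
    ext f
    simp only [Set.mem_ofPred_eq, mem_inter_iff, SetLike.mem_coe, mem_iUnion, Subtype.exists]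
    refine and_congr_right fun hf => ?_
    have hp1 := Pool.Agent.H75K.p_lift (s := lft p hp) (p_lft p hp)
    have hfk : FreeGroup.lift (lft p hp) f ∈ p.ker := by
      rw [MonoidHom.mem_ker, hp1]; exact hf.1
    have hmap : FreeGroup.lift (lft p hp) f ∈ L.map p.ker.subtype ↔
        (⟨FreeGroup.lift (lft p hp) f, hfk⟩ : p.ker) ∈ L := by
      constructor
      · rintro ⟨z, hz, hz2⟩
        have : z = ⟨FreeGroup.lift (lft p hp) f, hfk⟩ := Subtype.ext hz2
        rw [← this]; exact hz
      · intro h
        exact ⟨_, h, rfl⟩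
    rw [hmap, hL]
    constructor
    · rintro ⟨m, hm, y, hy⟩
      have hy' : FreeGroup.lift (lft p hp) f ^ m = (y : E) ^ n := congrArg Subtype.val hy
      obtain ⟨t, ht, hty⟩ := exists_T (G := DiffC) (s := lft p hp) (p_lft p hp) hc hE y.2
      refine ⟨m, hm, t ^ n, ⟨t, ht, rfl⟩, (t ^ n)⁻¹ * f ^ m, ?_, by group⟩
      refine mem_D_of_lift (s := lft p hp) (p_lft p hp) hu ?_ ?_
      · exact (TT DiffC).mul_mem ((TT DiffC).inv_mem ((TT DiffC).pow_mem ht n))
          ((TT DiffC).pow_mem hf m)
      · rw [map_mul, map_inv, map_pow, map_pow, hty, hy', inv_mul_cancel]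
    · rintro ⟨m, hm, a, ⟨t, ht, rfl⟩, b, hb, hfm⟩
      have htk : FreeGroup.lift (lft p hp) t ∈ p.ker := by
        rw [MonoidHom.mem_ker, hp1]; exact ht.1
      refine ⟨m, hm, ⟨FreeGroup.lift (lft p hp) t, htk⟩, Subtype.ext ?_⟩
      change FreeGroup.lift (lft p hp) f ^ m = FreeGroup.lift (lft p hp) t ^ n
      rw [← map_pow, hfm, map_mul, map_pow, lift_D (s := lft p hp) (p_lft p hp) hc hb, mul_one]
  rw [eq_top_iff]
  intro z _
  obtain ⟨w, hw, hw2⟩ := key z.2
  have : w = z := Subtype.ext hw2
  rw [← this]; exact hw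

end

end Pool.Agent.H75K
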