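import Pool.Agent.H75K.Ana

/-!
Module K7.  Existential systems of words.
-/

set_option autoImplicit false

open scoped commutatorElement
open Set MeasureTheory

namespace Pool.Agent.H75K

/-- simultaneous representation of finitely many elements of the free group (`exists_val` for each
of them, the letters being indexed by `Σ j, Fin (n j)`, which is transported to a `Fin n₁`) -/
theorem exists_val_family {X G : Type} {π : X → G} (hs : Function.Surjective π) {k : ℕ}
    (t : Fin k → FreeGroup G) :
    ∃ (n : ℕ) (σ : Fin k → FreeGroup (Fin n)) (y : Fin n → X), ∀ j, val π y (σ j) = t j := by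
  choose m τ x hx using fun j => exists_val (π := π) hs (t j)
  let e := Fintype.equivFin (Σ j : Fin k, Fin (m j))
  refine ⟨Fintype.card (Σ j : Fin k, Fin (m j)),
    fun j => FreeGroup.map (fun i => e ⟨j, i⟩) (τ j),
    fun a => x (e.symm a).1 (e.symm a).2, fun j => ?_⟩
  rw [val_map, ← hx j]
  congr 2
  funext i
  rw [Equiv.symm_apply_apply]

variable {X G : Type} [TopologicalSpace X] [PolishSpace X] {π : X → G}

omit [TopologicalSpace X] [PolishSpace X] in
theorem val_system {n m k : ℕ} (x : Fin n → X) (y : Fin m → X) (τ : FreeGroup (Fin n))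
    (σ : Fin k → FreeGroup (Fin m)) (ω : FreeGroup (Option (Fin k))) :
    val π (Sum.elim x y : Fin n ⊕ Fin m → X)
      (FreeGroup.lift (fun o : Option (Fin k) =>
        o.elim (FreeGroup.map (Sum.inl : Fin n → Fin n ⊕ Fin m) τ)
          (fun j => FreeGroup.map (Sum.inr : Fin m → Fin n ⊕ Fin m) (σ j))) ω) =
    FreeGroup.lift (fun o : Option (Fin k) => o.elim (val π x τ) (fun j => val π y (σ j))) ω := by
  have h : (val π (Sum.elim x y : Fin n ⊕ Fin m → X)).comp
      (FreeGroup.lift (fun o : Option (Fin k) =>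
        o.elim (FreeGroup.map (Sum.inl : Fin n → Fin n ⊕ Fin m) τ)
          (fun j => FreeGroup.map (Sum.inr : Fin m → Fin n ⊕ Fin m) (σ j)))) =
      FreeGroup.lift (fun o : Option (Fin k) =>
        o.elim (val π x τ) (fun j => val π y (σ j))) := by
    refine FreeGroup.ext_hom _ _ fun o => ?_
    rw [MonoidHom.comp_apply, FreeGroup.lift_apply_of, FreeGroup.lift_apply_of]
    cases o with
    | none => exact val_map _ _ _
    | some j => exact val_map _ _ _
  exact DFunLike.congr_fun h ω

/-- Analyticity of an existential system.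

`{x | val π x τ ∈ …}` is the union over `n₁` and `σ : Fin k → FreeGroup (Fin n₁)` (countably many) of the
projection to `Fin n → X` of the set of the `(x, y)` with `val π y (σ j) ∈ T` for all `j` and
`val π (Sum.elim x y) (FreeGroup.lift (fun o => o.elim (map inl τ) (fun j => map inr (σ j))) ω) ∈ D` for all
`ω ∈ W` (`Ana.fintype`, `val_map`; both sides are homomorphisms in `ω`). -/
theorem Ana.system (hs : Function.Surjective π) {T D : Set (FreeGroup G)} (hT : Ana π T)
    (hD : Ana π D) (k : ℕ) (W : List (FreeGroup (Option (Fin k)))) :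
    Ana π {f | ∃ t : Fin k → FreeGroup G, (∀ j, t j ∈ T) ∧
      ∀ ω ∈ W, FreeGroup.lift (fun o : Option (Fin k) => o.elim f t) ω ∈ D} := by
  intro n τ
  have e : {x : Fin n → X | val π x τ ∈ {f | ∃ t : Fin k → FreeGroup G, (∀ j, t j ∈ T) ∧
      ∀ ω ∈ W, FreeGroup.lift (fun o : Option (Fin k) => o.elim f t) ω ∈ D}} =
      ⋃ N : (Σ m : ℕ, (Fin k → FreeGroup (Fin m))),
        (Prod.fst : (Fin n → X) × (Fin N.1 → X) → (Fin n → X)) ''
          {p | (∀ j, val π p.2 (N.2 j) ∈ T) ∧ ∀ ω ∈ W,
            val π (Sum.elim p.1 p.2 : Fin n ⊕ Fin N.1 → X)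
              (FreeGroup.lift (fun o : Option (Fin k) =>
                o.elim (FreeGroup.map (Sum.inl : Fin n → Fin n ⊕ Fin N.1) τ)
                  (fun j => FreeGroup.map (Sum.inr : Fin N.1 → Fin n ⊕ Fin N.1) (N.2 j))) ω) ∈
              D} := by
    ext x
    simp only [mem_ofPred_eq, mem_iUnion, mem_image, Prod.exists, exists_and_right,
      exists_eq_right]
    constructor
    · rintro ⟨t, ht, hW⟩
      obtain ⟨m, σ, y, hy⟩ := exists_val_family (π := π) hs t
      have hy' : (fun j => val π y (σ j)) = t := funext hy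
      refine ⟨⟨m, σ⟩, y, fun j => by rw [hy]; exact ht j, fun ω hω => ?_⟩
      rw [val_system, hy']
      exact hW ω hω
    · rintro ⟨⟨m, σ⟩, y, h1, h2⟩
      refine ⟨fun j => val π y (σ j), h1, fun ω hω => ?_⟩
      have h3 := h2 ω hω
      rw [val_system] at h3
      exact h3
  rw [e]
  refine AnalyticSet.iUnion fun N => AnalyticSet.image_of_continuous ?_ continuous_fst
  -- a finite intersection
  let P : Option (Fin k ⊕ {ω // ω ∈ W}) → Set ((Fin n → X) × (Fin N.1 → X)) := fun o =>
    match o with
    | none => univ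
    | some (Sum.inl j) => {p | val π p.2 (N.2 j) ∈ T}
    | some (Sum.inr ω) => {p | val π (Sum.elim p.1 p.2 : Fin n ⊕ Fin N.1 → X)
              (FreeGroup.lift (fun o : Option (Fin k) =>
                o.elim (FreeGroup.map (Sum.inl : Fin n → Fin n ⊕ Fin N.1) τ)
                  (fun j => FreeGroup.map (Sum.inr : Fin N.1 → Fin n ⊕ Fin N.1) (N.2 j))) ω.1) ∈ D}
  have h1 : {p : (Fin n → X) × (Fin N.1 → X) | (∀ j, val π p.2 (N.2 j) ∈ T) ∧ ∀ ω ∈ W,
            val π (Sum.elim p.1 p.2 : Fin n ⊕ Fin N.1 → X)
              (FreeGroup.lift (fun o : Option (Fin k) =>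
                o.elim (FreeGroup.map (Sum.inl : Fin n → Fin n ⊕ Fin N.1) τ)
                  (fun j => FreeGroup.map (Sum.inr : Fin N.1 → Fin n ⊕ Fin N.1) (N.2 j))) ω) ∈
              D} = ⋂ o, P o := by
    ext p
    rw [mem_iInter]
    constructor
    · rintro ⟨h2, h3⟩ o
      rcases o with _ | j | ω
      · exact mem_univ _
      · exact h2 j
      · exact h3 ω.1 ω.2
    · intro h2
      exact ⟨fun j => h2 (some (Sum.inl j)), fun ω hω => h2 (some (Sum.inr ⟨ω, hω⟩))⟩
  rw [h1]
  have : Countable {ω // ω ∈ W} := by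
    have : Finite {ω // ω ∈ W} := W.finite_toSet
    infer_instance
  refine AnalyticSet.iInter fun o => ?_
  rcases o with _ | j | ω
  · exact isClosed_univ.analyticSet
  · exact (hT N.1 (N.2 j)).preimage continuous_snd
  · have hc : Continuous (fun p : (Fin n → X) × (Fin N.1 → X) =>
        (Sum.elim p.1 p.2 : Fin n ⊕ Fin N.1 → X)) := by
      refine continuous_pi fun i => ?_
      rcases i with i | i
      · exact (continuous_apply i).comp continuous_fst
      · exact (continuous_apply i).comp continuous_snd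
    let _ : TopologicalSpace G := ⊥
    have : DiscreteTopology G := ⟨rfl⟩
    exact (hD.fintype _).preimage hc

end Pool.Agent.H75K
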