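import Pool.Agent.H75K.Final
import Pool.Agent.H75K.Rel
import Pool.Agent.H75K.Crit

set_option autoImplicit false

open scoped commutatorElement TensorProduct
open Set MeasureTheory Topology

namespace Pool.Agent.H75K

open Pool.Agent.H45F Pool.Agent.H75S Pool.Agent.H75T Pool.Agent.H75B Pool.Agent.H75G

/-- `x ↦ (m x) ⊗ a` -/
noncomputable def gg {K A : Type*} [AddCommGroup K] [AddCommGroup A] (m : ℕ) (a : A) :
    K →+ (LinearMap.range (mulBy K m)) ⊗[ℤ] A where
  toFun x := (⟨mulBy K m x, LinearMap.mem_range_self _ x⟩ : LinearMap.range (mulBy K m)) ⊗ₜ[ℤ] a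
  map_zero' := by
    have : (⟨mulBy K m 0, LinearMap.mem_range_self _ 0⟩ : LinearMap.range (mulBy K m)) = 0 :=
      Subtype.ext (map_zero _)
    rw [this, TensorProduct.zero_tmul]
  map_add' x y := by
    rw [← TensorProduct.add_tmul]
    congr 1
    exact Subtype.ext (map_add _ _ _)

section

variable {K : Type*} [AddCommGroup K] {E : Type*} [Group E] (i : Multiplicative K →* E)
  (p : E →* DiffC) (hi : Function.Injective i) (hip : i.range = p.ker)
  (hp : Function.Surjective p) (hc : p.ker ≤ Subgroup.center E) (hE : commutator E = ⊤)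
  (hu : Universal p)

include hip in
theorem i_mem_ker (x : Multiplicative K) : i x ∈ p.ker := by
  rw [← hip]; exact ⟨x, rfl⟩

/-- the subgroup of the kernel of the `x` with `(m x) ⊗ a = 0` -/
noncomputable def LL {A : Type*} [AddCommGroup A] (m : ℕ) (a : A) : Subgroup E :=
  (AddMonoidHom.toMultiplicative (gg (K := K) m a)).ker.map i

include hi in
theorem mem_LL {A : Type*} [AddCommGroup A] (m : ℕ) (a : A) (x : K) :
    i (Multiplicative.ofAdd x) ∈ LL i m a ↔ gg m a x = 0 := by
  unfold LL
  rw [Subgroup.mem_map]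
  constructor
  · rintro ⟨y, hy, hyx⟩
    have h1 := hi hyx
    rw [h1] at hy
    exact hy
  · intro h
    exact ⟨Multiplicative.ofAdd x, h, rfl⟩

include hi hip hc hE hu in
theorem ana_LL {A : Type*} [AddCommGroup A] [Countable A] (m : ℕ) (a : A) :
    Ana pr {f | f ∈ TT DiffC ∧ FreeGroup.lift (lft p hp) f ∈ LL i m a} := by
  classical
  have hT := ana_T (π := pr) continuous_pr pr_surjective
  have hD := ana_D (π := pr) continuous_pr pr_surjective
  have h3 := hT.inter (Ana.iUnion fun s : Sys A a =>
    Ana.system (π := pr) pr_surjective hT hD s.k (s.words m))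
  suffices hset : {f : FreeGroup DiffC | f ∈ TT DiffC ∧
      FreeGroup.lift (lft p hp) f ∈ LL i m a} =
      ((TT DiffC : Subgroup _) : Set (FreeGroup DiffC)) ∩ ⋃ s : Sys A a,
      {f | ∃ t : Fin s.k → FreeGroup DiffC,
        (∀ j, t j ∈ ((TT DiffC : Subgroup _) : Set (FreeGroup DiffC))) ∧
        ∀ ω ∈ s.words m, FreeGroup.lift (fun o : Option (Fin s.k) => o.elim f t) ω ∈
          ((DD DiffC : Subgroup _) : Set (FreeGroup DiffC))} by
    rw [hset]; exact h3
  ext f
  simp only [Set.mem_ofPred_eq, mem_inter_iff, SetLike.mem_coe, mem_iUnion]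
  refine and_congr_right fun hf => ?_
  have hp1 := Pool.Agent.H75K.p_lift (s := lft p hp) (p_lft p hp)
  have hfk : FreeGroup.lift (lft p hp) f ∈ p.ker := by
    rw [MonoidHom.mem_ker, hp1]; exact hf.1
  -- elements of the kernel
  have hker : ∀ z ∈ p.ker, ∃ x : K, i (Multiplicative.ofAdd x) = z := by
    intro z hz
    rw [← hip] at hz
    obtain ⟨x, hx⟩ := hz
    exact ⟨x.toAdd, hx⟩
  obtain ⟨x, hx⟩ := hker _ hfk
  rw [← hx, mem_LL i hi]
  change _ ⊗ₜ[ℤ] a = 0 ↔ _
  rw [tmul_eq_zero_iff]
  -- the translation of the equations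
  have key : ∀ {k : ℕ} (y : Fin k → K) (t : Fin k → FreeGroup DiffC),
      (∀ j, t j ∈ TT DiffC) → (∀ j, FreeGroup.lift (lft p hp) (t j) =
        i (Multiplicative.ofAdd (y j))) → ∀ ω : FreeGroup (Option (Fin k)),
      (FreeGroup.lift (fun o : Option (Fin k) => Multiplicative.ofAdd (o.elim x y)) ω = 1 ↔
        FreeGroup.lift (fun o : Option (Fin k) => o.elim f t) ω ∈ DD DiffC) := by
    intro k y t ht hty ω
    have h4 : i (FreeGroup.lift (fun o : Option (Fin k) => Multiplicative.ofAdd (o.elim x y)) ω) =
        FreeGroup.lift (lft p hp) (FreeGroup.lift (fun o : Option (Fin k) => o.elim f t) ω) := by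
      have e : i.comp (FreeGroup.lift fun o : Option (Fin k) =>
          Multiplicative.ofAdd (o.elim x y)) =
          (FreeGroup.lift (lft p hp)).comp
            (FreeGroup.lift fun o : Option (Fin k) => o.elim f t) := by
        apply FreeGroup.ext_hom
        intro o
        cases o with
        | none => simpa using hx
        | some j => simpa using (hty j).symm
      exact DFunLike.congr_fun e ω
    have h5 : FreeGroup.lift (fun o : Option (Fin k) => o.elim f t) ω ∈ TT DiffC := by
      have h6 : (FreeGroup.lift fun o : Option (Fin k) => o.elim f t).range ≤ TT DiffC := by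
        rw [FreeGroup.range_lift_eq_closure, Subgroup.closure_le]
        rintro _ ⟨o, rfl⟩
        cases o with
        | none => exact hf
        | some j => exact ht j
      exact h6 ⟨ω, rfl⟩
    constructor
    · intro h7
      refine mem_D_of_lift (s := lft p hp) (p_lft p hp) hu h5 ?_
      rw [← h4, h7, map_one]
    · intro h7
      apply hi
      rw [h4, map_one]
      exact lift_D (s := lft p hp) (p_lft p hp) hc h7
  constructor
  · rintro ⟨s, y, hy⟩
    choose t ht hty using fun j => exists_T (G := DiffC) (s := lft p hp) (p_lft p hp) hc hE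
      (i_mem_ker i p hip (Multiplicative.ofAdd (y j)))
    exact ⟨s, t, ht, fun ω hω => (key y t ht hty ω).mp (hy ω hω)⟩
  · rintro ⟨s, t, ht, hω⟩
    choose y hy using fun j => hker (FreeGroup.lift (lft p hp) (t j)) (by
      rw [MonoidHom.mem_ker, hp1]; exact (ht j).1)
    exact ⟨s, y, fun ω h => (key y t ht (fun j => (hy j).symm) ω).mpr (hω ω h)⟩

include hi hip hp hc hE hu in
/-- **`m K ⊗ A` is zero or uncountable** -/
theorem tens (m : ℕ) {A : Type*} [AddCommGroup A] [Countable A]
    (h : Countable ((LinearMap.range (mulBy K m)) ⊗[ℤ] A)) :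
    Subsingleton ((LinearMap.range (mulBy K m)) ⊗[ℤ] A) := by
  classical
  have hker : ∀ z ∈ p.ker, ∃ x : K, i (Multiplicative.ofAdd x) = z := by
    intro z hz
    rw [← hip] at hz
    obtain ⟨x, hx⟩ := hz
    exact ⟨x.toAdd, hx⟩
  have h1 : ∀ (a : A) (x : K), gg m a x = 0 := by
    intro a x
    have hcount : Countable (p.ker ⧸ (LL i m a).subgroupOf p.ker) := by
      choose x hx using fun z : p.ker => hker z.1 z.2
      have hinj : Function.Injective
          (fun q : p.ker ⧸ (LL i m a).subgroupOf p.ker => gg m a (x q.out)) := by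
        intro q q' hqq
        have h2 : gg m a (x q'.out - x q.out) = 0 := by
          rw [map_sub]
          have : gg m a (x q.out) = gg m a (x q'.out) := hqq
          rw [this, sub_self]
        rw [← mem_LL i hi] at h2
        have h3 : (q.out : E)⁻¹ * (q'.out : E) ∈ LL i m a := by
          have e : i (Multiplicative.ofAdd (x q'.out - x q.out)) =
              (q.out : E)⁻¹ * (q'.out : E) := by
            rw [sub_eq_neg_add, ofAdd_add, ofAdd_neg, map_mul, map_inv, hx, hx]
          rwa [e] at h2
        have h4 : (QuotientGroup.mk q.out : p.ker ⧸ (LL i m a).subgroupOf p.ker) =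
            QuotientGroup.mk q'.out := QuotientGroup.eq.mpr h3
        rwa [QuotientGroup.out_eq', QuotientGroup.out_eq'] at h4
      exact hinj.countable
    have h5 := core p hp hc hE (LL i m a) (ana_LL i p hi hip hp hc hE hu m a) hcount
    rw [← mem_LL i hi]
    exact h5 (i_mem_ker i p hip _)
  refine ⟨fun u v => ?_⟩
  have h2 : ∀ u : (LinearMap.range (mulBy K m)) ⊗[ℤ] A, u = 0 := by
    intro u
    induction u using TensorProduct.induction_on with
    | zero => rfl
    | tmul y a =>
      obtain ⟨y, x, rfl⟩ := y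
      exact h1 a x
    | add u v hu hv => rw [hu, hv, add_zero]
  rw [h2 u, h2 v]

end

end Pool.Agent.H75K
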