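import Pool.Agent.H75K.Defs

/-!
Module K1.  The word problem is Borel.

Paper proof of `measurable_one`: `val π x τ = 1` depends only on the equality pattern
`e (i, j) = decide (π (x i) = π (x j))` of the letters: if `x` and `y` have the same pattern there is
`h : G → G` with `h (π (x i)) = π (y i)` for all `i` (choose `h` on the range of `π ∘ x`, the identity
or anything elsewhere), so `val π y τ = FreeGroup.map h (val π x τ)` (`FreeGroup.map.comp`), and
`val π x τ = 1` implies `val π y τ = 1`.  Hence the set is the union, over the finitely (countably)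
many patterns `e : ι × ι → Bool` such that some `x` with the pattern `e` has `val π x τ = 1`, of the
sets of all `x` with the pattern `e`; such a set is a finite intersection of closed sets
`{x | π (x i) = π (x j)}` (`π` continuous, `G` Hausdorff) and of complements of such sets.
-/

set_option autoImplicit false

open scoped commutatorElement
open Set MeasureTheory

namespace Pool.Agent.H75K

variable {X G : Type} [TopologicalSpace X] [PolishSpace X] [TopologicalSpace G] [T2Space G]
  {π : X → G}

omit [TopologicalSpace X] [PolishSpace X] [TopologicalSpace G] [T2Space G] in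
theorem val_map {ι κ : Type} (f : ι → κ) (x : κ → X) (τ : FreeGroup ι) :
    val π x (FreeGroup.map f τ) = val π (fun i => x (f i)) τ := by
  unfold val
  rw [FreeGroup.map.comp]
  rfl

omit [TopologicalSpace X] [PolishSpace X] [TopologicalSpace G] [T2Space G] in
theorem val_one_of_pattern {ι : Type} {x y : ι → X} {τ : FreeGroup ι}
    (h : ∀ i j, π (x i) = π (x j) → π (y i) = π (y j)) (hx : val π x τ = 1) :
    val π y τ = 1 := by
  classical
  let g : G → G := fun a => if ha : ∃ i, π (x i) = a then π (y ha.choose) else a
  have hg : ∀ i, g (π (x i)) = π (y i) := by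
    intro i
    have ha : ∃ j, π (x j) = π (x i) := ⟨i, rfl⟩
    simp only [g, dif_pos ha]
    exact h _ _ ha.choose_spec
  have h1 : val π y τ = FreeGroup.map g (val π x τ) := by
    unfold val
    rw [FreeGroup.map.comp]
    congr 2
    funext i
    exact (hg i).symm
  rw [h1, hx, map_one]

theorem measurable_one (hπ : Continuous π) {ι : Type} [Fintype ι] (τ : FreeGroup ι) :
    @MeasurableSet (ι → X) (borel _) {x | val π x τ = 1} := by
  let _ : MeasurableSpace (ι → X) := borel _
  have : BorelSpace (ι → X) := ⟨rfl⟩
  change MeasurableSet {x : ι → X | val π x τ = 1}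
  have h1 : {x : ι → X | val π x τ = 1} =
      ⋃ s ∈ {s : Set (ι × ι) | ∃ y : ι → X, {p : ι × ι | π (y p.1) = π (y p.2)} = s ∧ val π y τ = 1},
        {x : ι → X | {p : ι × ι | π (x p.1) = π (x p.2)} = s} := by
    ext x
    simp only [mem_ofPred_eq, mem_iUnion, exists_prop]
    constructor
    · intro hx
      exact ⟨{p : ι × ι | π (x p.1) = π (x p.2)}, ⟨x, rfl, hx⟩, rfl⟩
    · rintro ⟨s, ⟨y, hy, hy1⟩, hx⟩
      refine val_one_of_pattern (x := y) (fun i j hij => ?_) hy1
      have h2 : ((i, j) : ι × ι) ∈ {p : ι × ι | π (y p.1) = π (y p.2)} := hij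
      rw [hy, ← hx] at h2
      exact h2
  rw [h1]
  refine MeasurableSet.biUnion (Set.toFinite _).countable fun s _ => ?_
  have h2 : {x : ι → X | {p : ι × ι | π (x p.1) = π (x p.2)} = s} =
      ⋂ p : ι × ι, {x : ι → X | π (x p.1) = π (x p.2) ↔ p ∈ s} := by
    ext x
    simp only [mem_ofPred_eq, mem_iInter]
    constructor
    · intro h p
      rw [← h]
      exact Iff.rfl
    · intro h
      ext p
      exact h p
  rw [h2]
  refine MeasurableSet.iInter fun p => ?_
  have hc : MeasurableSet {x : ι → X | π (x p.1) = π (x p.2)} :=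
    (isClosed_eq (hπ.comp (continuous_apply p.1)) (hπ.comp (continuous_apply p.2))).measurableSet
  by_cases hp : p ∈ s
  · have h3 : {x : ι → X | π (x p.1) = π (x p.2) ↔ p ∈ s} = {x : ι → X | π (x p.1) = π (x p.2)} := by
      ext x
      simp only [mem_ofPred_eq, hp, iff_true]
    rw [h3]
    exact hc
  · have h3 : {x : ι → X | π (x p.1) = π (x p.2) ↔ p ∈ s} =
        {x : ι → X | π (x p.1) = π (x p.2)}ᶜ := by
      ext x
      simp only [mem_ofPred_eq, hp, iff_false, mem_compl_iff]
    rw [h3]
    exact hc.compl

theorem analytic_one (hπ : Continuous π) {ι : Type} [Fintype ι] (τ : FreeGroup ι) :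
    AnalyticSet {x : ι → X | val π x τ = 1} := by
  let _ : MeasurableSpace (ι → X) := borel _
  have : BorelSpace (ι → X) := ⟨rfl⟩
  exact MeasurableSet.analyticSet (measurable_one hπ τ)

omit [TopologicalSpace X] [PolishSpace X] [TopologicalSpace G] [T2Space G] in
/-- every element of the free group is the value of an abstract word -/
theorem exists_val (hs : Function.Surjective π) (f : FreeGroup G) :
    ∃ (n : ℕ) (τ : FreeGroup (Fin n)) (x : Fin n → X), val π x τ = f := by
  classical
  obtain ⟨L, rfl⟩ : ∃ L, FreeGroup.mk L = f := ⟨f.toWord, FreeGroup.mk_toWord⟩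
  choose r hr using hs
  refine ⟨L.length, FreeGroup.mk (List.ofFn fun i : Fin L.length => (i, (L.get i).2)),
    fun i => r (L.get i).1, ?_⟩
  unfold val
  rw [FreeGroup.map.mk]
  congr 1
  rw [List.map_ofFn]
  conv_rhs => rw [← List.ofFn_get L]
  congr 1
  funext i
  simp only [Function.comp, hr]

/-- the case of a general finite index type -/
theorem Ana.fintype {A : Set (FreeGroup G)} (hA : Ana π A) {ι : Type} [Fintype ι]
    (τ : FreeGroup ι) : AnalyticSet {x : ι → X | val π x τ ∈ A} := by
  -- transport along `Fintype.equivFin ι`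
  let e := Fintype.equivFin ι
  have h1 := hA (Fintype.card ι) (FreeGroup.map e τ)
  have h2 : {x : ι → X | val π x τ ∈ A} =
      (fun (x : ι → X) (j : Fin (Fintype.card ι)) => x (e.symm j)) ⁻¹'
        {x : Fin (Fintype.card ι) → X | val π x (FreeGroup.map e τ) ∈ A} := by
    ext x
    simp only [mem_preimage, mem_ofPred_eq, val_map, Equiv.symm_apply_apply]
  rw [h2]
  exact h1.preimage (by fun_prop)

end Pool.Agent.H75K
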